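import Pool.Agent.H95.Ram.Core

set_option autoImplicit false
set_option linter.unusedSectionVars false

namespace Pool.Agent.H95.Ram

open Finset Pool.Agent.H38.Ram

variable {V : Type*} [DecidableEq V] (G : SimpleGraph V) [DecidableRel G.Adj]

/-- Cliques with large common neighbourhoods: the vertices `z 0, ..., z (s - 1)` are pairwise
adjacent and all adjacent to the vertices of `W`. -/
lemma exists_clique_nbhd {n : ℕ} (hJ : Joined G n) (hn : 1 ≤ n) (w : ℕ) :
    ∀ (s : ℕ) (W₀ : Finset V), n ^ s * (w + 3 * s) ≤ W₀.card →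
      ∃ (z : Fin s → V) (W : Finset V), W ⊆ W₀ ∧ w ≤ W.card ∧
        (∀ i, z i ∈ W₀) ∧ (∀ i j, i ≠ j → G.Adj (z i) (z j)) ∧ (∀ i, ∀ x ∈ W, G.Adj (z i) x) := by
  intro s
  induction s with
  | zero =>
    intro W₀ h
    refine ⟨Fin.elim0, W₀, subset_rfl, by simpa using h, fun i => i.elim0, fun i => i.elim0,
      fun i => i.elim0⟩
  | succ s ih =>
    intro W₀ h
    -- a vertex with large degree
    set m := n ^ s * (w + 3 * s) with hm
    have h1 : n * m + 3 * n ≤ W₀.card := by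
      have h2 : 1 ≤ n ^ s := Nat.one_le_pow _ _ hn
      have h3 : n * 3 * 1 ≤ n * 3 * n ^ s := Nat.mul_le_mul_left _ h2
      calc n * m + 3 * n = n * m + n * 3 * 1 := by ring
        _ ≤ n * m + n * 3 * n ^ s := Nat.add_le_add_left h3 _
        _ = n ^ (s + 1) * (w + 3 * (s + 1)) := by rw [hm]; ring
        _ ≤ _ := h
    obtain ⟨z₀, hz₀, hz₀m⟩ : ∃ z₀ ∈ W₀, m ≤ (nb G W₀ z₀).card := by
      by_contra hc
      push Not at hc
      have h4 := few_low G hJ W₀ W₀ m (fun v hv => (hc v hv).le) (by omega)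
      omega
    obtain ⟨z, W, hWsub, hWcard, hzmem, hzz, hzW⟩ := ih (nb G W₀ z₀) hz₀m
    refine ⟨Fin.cons z₀ z, W, hWsub.trans (nb_subset G W₀ z₀), hWcard, ?_, ?_, ?_⟩
    · intro i
      refine Fin.cases ?_ ?_ i
      · simpa using hz₀
      · intro i
        simpa using nb_subset G W₀ z₀ (hzmem i)
    · intro i j
      refine Fin.cases ?_ ?_ i
      · refine Fin.cases ?_ ?_ j
        · intro h
          exact absurd rfl h
        · intro j _
          simpa using ((mem_nb G).1 (hzmem j)).2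
      · intro i
        refine Fin.cases ?_ ?_ j
        · intro _
          simpa using ((mem_nb G).1 (hzmem i)).2.symm
        · intro j hij
          have : i ≠ j := fun h => hij (by rw [h])
          simpa using hzz i j this
    · intro i
      refine Fin.cases ?_ ?_ i
      · intro x hx
        simpa using ((mem_nb G).1 (hWsub hx)).2
      · intro i x hx
        simpa using hzW i x hx

/-- The core theorem after deletion of a set `Z` of vertices of `H`. -/
theorem core_apex [Fintype V] {k s M ℓ : ℕ} (hk : 1 ≤ k)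
    (hM : 2 * (2 * k + 10) * (2 * k) ^ 4 ≤ M) (hℓ : (8 * k) ^ k ≤ ℓ + 1)
    (hV : (M ^ (ℓ + 1)) ^ s * ((2 * k + 10) * M ^ (3 * ℓ + 2) + 3 * s) ≤
      (Finset.univ : Finset V).card)
    (hJ : Joined G (M ^ (ℓ + 1)))
    (H : SimpleGraph (Fin k)) (Z : Finset (Fin k)) (hZ : Z.card ≤ s)
    (f : Fin k → ℕ) (hf : Function.Injective f)
    (hback : ∀ v : Fin k, v ∉ Z → Set.ncard {u : Fin k | u ∉ Z ∧ H.Adj u v ∧ f u < f v} ≤ 2) :
    H.IsContained G := by
  classical
  have hM1 : 1 ≤ M := by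
    have h1 : 1 ≤ (2 * k) ^ 4 := Nat.one_le_pow _ _ (by omega)
    calc 1 = 1 * 1 := rfl
      _ ≤ (2 * (2 * k + 10)) * (2 * k) ^ 4 := Nat.mul_le_mul (by omega) h1
      _ ≤ M := hM
  obtain ⟨z, W, _, hWcard, _, hzz, hzW⟩ := exists_clique_nbhd G hJ (Nat.one_le_pow _ _ hM1)
    ((2 * k + 10) * M ^ (3 * ℓ + 2)) s Finset.univ hV
  obtain ⟨W₀, hW₀W, hW₀⟩ := Finset.exists_subset_card_eq hWcard
  -- the graph `H` without the edges at `Z`
  let H' : SimpleGraph (Fin k) :=
    { Adj := fun u v => H.Adj u v ∧ u ∉ Z ∧ v ∉ Z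
      symm := ⟨fun u v h => ⟨h.1.symm, h.2.2, h.2.1⟩⟩
      loopless := ⟨fun u h => h.1.ne rfl⟩ }
  have hback' : ∀ v : Fin k, Set.ncard {u : Fin k | H'.Adj u v ∧ f u < f v} ≤ 2 := by
    intro v
    by_cases hv : v ∈ Z
    · have : {u : Fin k | H'.Adj u v ∧ f u < f v} = ∅ := by
        ext u
        simp only [Set.mem_ofPred_eq, Set.mem_empty_iff_false, iff_false]
        rintro ⟨h, _⟩
        exact h.2.2 hv
      rw [this]
      simp
    · refine le_trans (Set.ncard_le_ncard ?_ (Set.toFinite _)) (hback v hv)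
      rintro u ⟨h, hlt⟩
      exact ⟨h.2.1, h.1, hlt⟩
  let e : {x // x ∈ W₀} ↪ V := Function.Embedding.subtype _
  have hJ' : Joined (G.comap e) (M ^ (ℓ + 1)) := by
    intro A B hAB hA hB
    obtain ⟨a, ha, b, hb, hab⟩ := hJ (A.map e) (B.map e)
      ((Finset.disjoint_map e).2 hAB) (by rwa [Finset.card_map]) (by rwa [Finset.card_map])
    obtain ⟨a', ha', rfl⟩ := Finset.mem_map.1 ha
    obtain ⟨b', hb', rfl⟩ := Finset.mem_map.1 hb
    exact ⟨a', ha', b', hb', hab⟩
  obtain ⟨φ⟩ : H'.IsContained (G.comap e) :=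
    core (G.comap e) (M := M) (ℓ := ℓ) hk hM hℓ (by
      rw [Finset.card_univ, Fintype.card_coe, hW₀]) hJ' H' f hf hback'
  -- an injection of `Z` into `Fin s`
  obtain ⟨ι, hι⟩ : ∃ ι : {x // x ∈ Z} → Fin s, Function.Injective ι := by
    have h1 : Fintype.card {x // x ∈ Z} ≤ Fintype.card (Fin s) := by
      rw [Fintype.card_coe, Fintype.card_fin]
      exact hZ
    obtain ⟨ι⟩ := Function.Embedding.nonempty_of_card_le h1
    exact ⟨ι, ι.injective⟩
  have hφW : ∀ u, (φ u : V) ∈ W := fun u => hW₀W (φ u).2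
  let ψ : Fin k → V := fun v => if h : v ∈ Z then z (ι ⟨v, h⟩) else (φ v : V)
  have hψZ : ∀ v (h : v ∈ Z), ψ v = z (ι ⟨v, h⟩) := fun v h => dif_pos h
  have hψn : ∀ v (_ : v ∉ Z), ψ v = (φ v : V) := fun v h => dif_neg h
  have hψadj : ∀ u v, H.Adj u v → G.Adj (ψ u) (ψ v) := by
    intro u v huv
    by_cases hu : u ∈ Z
    · by_cases hv : v ∈ Z
      · rw [hψZ u hu, hψZ v hv]
        apply hzz
        intro h
        have := hι h
        exact huv.ne (congrArg Subtype.val this)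
      · rw [hψZ u hu, hψn v hv]
        exact hzW _ _ (hφW v)
    · by_cases hv : v ∈ Z
      · rw [hψn u hu, hψZ v hv]
        exact (hzW _ _ (hφW u)).symm
      · rw [hψn u hu, hψn v hv]
        have h1 : H'.Adj u v := ⟨huv, hu, hv⟩
        exact φ.toHom.map_rel h1
  have hψinj : Function.Injective ψ := by
    intro u v h
    by_cases hu : u ∈ Z
    · by_cases hv : v ∈ Z
      · rw [hψZ u hu, hψZ v hv] at h
        by_contra hne
        have h1 : ι ⟨u, hu⟩ ≠ ι ⟨v, hv⟩ := fun h2 => hne (congrArg Subtype.val (hι h2))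
        exact (hzz _ _ h1).ne h
      · rw [hψZ u hu, hψn v hv] at h
        exact absurd h (hzW _ _ (hφW v)).ne
    · by_cases hv : v ∈ Z
      · rw [hψn u hu, hψZ v hv] at h
        exact absurd h.symm (hzW _ _ (hφW u)).ne
      · rw [hψn u hu, hψn v hv] at h
        exact φ.injective (Subtype.ext h)
  exact ⟨⟨⟨ψ, fun {u v} h => hψadj u v h⟩, hψinj⟩⟩

end Pool.Agent.H95.Ram
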