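import Pool.Agent.H95.Ram.LevEmbed

set_option autoImplicit false
set_option linter.unusedSectionVars false

namespace Pool.Agent.H95.Ram

open Finset Pool.Agent.H38.Ram

/-- Exponents of the sizes of the restricted sets. -/
def pe (k : ℕ) : ℕ → ℕ
  | 0 => 0
  | j + 1 => (pe k j + 1) * (4 * k) + 3

lemma pe_bound (k : ℕ) (hk : 1 ≤ k) : ∀ j, pe k j + 1 ≤ (8 * k) ^ j := by
  intro j
  induction j with
  | zero => simp [pe]
  | succ j ih =>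
    rw [pe, pow_succ]
    have h1 : (pe k j + 1) * (8 * k) ≤ (8 * k) ^ j * (8 * k) := Nat.mul_le_mul_right _ ih
    have h2 : (pe k j + 1) * (8 * k) = (pe k j + 1) * (4 * k) + (pe k j + 1) * (4 * k) := by ring
    have h3 : 1 * 4 ≤ (pe k j + 1) * (4 * k) := Nat.mul_le_mul (by omega) (by omega)
    omega

variable {V : Type*} [DecidableEq V] [Fintype V] (G : SimpleGraph V) [DecidableRel G.Adj]

theorem core {k M ℓ : ℕ} (hk : 1 ≤ k) (hM : 2 * (2 * k + 10) * (2 * k) ^ 4 ≤ M)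
    (hℓ : (8 * k) ^ k ≤ ℓ + 1)
    (hV : (Finset.univ : Finset V).card = (2 * k + 10) * M ^ (3 * ℓ + 2))
    (hJ : Joined G (M ^ (ℓ + 1)))
    (H : SimpleGraph (Fin k)) (f : Fin k → ℕ) (hf : Function.Injective f)
    (hback : ∀ v : Fin k, Set.ncard {u : Fin k | H.Adj u v ∧ f u < f v} ≤ 2) :
    H.IsContained G := by
  by_contra hfree
  have hk4 : 2 ^ 4 ≤ (2 * k) ^ 4 := Nat.pow_le_pow_left (by omega) 4
  have hMk : 16 * (2 * (2 * k + 10)) ≤ M := by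
    calc 16 * (2 * (2 * k + 10)) = 2 * (2 * k + 10) * 2 ^ 4 := by ring
      _ ≤ 2 * (2 * k + 10) * (2 * k) ^ 4 := Nat.mul_le_mul_left _ hk4
      _ ≤ M := hM
  have hM1 : 1 ≤ M := by omega
  have hℓ3 : 7 ≤ ℓ := by
    have h1 : (8 * k) ^ 1 ≤ (8 * k) ^ k := Nat.pow_le_pow_right (by omega) hk
    rw [pow_one] at h1
    omega
  have hp : ∀ j ≤ k, pe k j ≤ ℓ := by
    intro j hj
    have h1 := pe_bound k hk j
    have h2 : (8 * k) ^ j ≤ (8 * k) ^ k := Nat.pow_le_pow_right (by omega) hj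
    omega
  have hmono : ∀ {a b : ℕ}, a ≤ b → M ^ a ≤ M ^ b := fun h => Nat.pow_le_pow_right hM1 h
  have hpos : ∀ a : ℕ, 1 ≤ M ^ a := fun a => Nat.one_le_pow _ _ hM1
  -- the dense spot bound
  have hDS : ∀ j < k, ∀ Y : Finset V, Y.card ≤ M ^ (ℓ + 1 + pe k j) →
      (Finset.univ.filter (fun a => M ^ ℓ ≤ (nb G Y a).card)).card ≤
        M ^ (ℓ + 1 + ((pe k j + 1) * (4 * k) + 1)) := by
    intro j hj Y hY
    refine dense_spot_gen G (k := k) (n := M ^ (ℓ + 1)) (t := 4 * k) (θ := M ^ ℓ)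
      (ρ := M ^ (ℓ + 1 + pe k j)) hk (hpos _) (hpos _) H f hf hback hJ hfree ?_ ?_ Y hY
    · rw [hV]
      have e1 : ((2 * k + 10) * M ^ (3 * ℓ + 2)) ^ k = (2 * k + 10) ^ k * M ^ ((3 * ℓ + 2) * k) := by
        rw [mul_pow, ← pow_mul]
      have e2 : (M ^ ℓ) ^ (4 * k) = M ^ ((3 * ℓ + 2) * k) * M ^ ((ℓ - 2) * k) := by
        rw [← pow_mul, ← pow_add]
        congr 1
        obtain ⟨l', rfl⟩ : ∃ l', ℓ = l' + 2 := ⟨ℓ - 2, by omega⟩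
        rw [Nat.add_sub_cancel]
        ring
      have e3 : (2 * (2 * k + 10) * (2 * k) ^ 4) ^ k ≤ M ^ ((ℓ - 2) * k) := by
        calc (2 * (2 * k + 10) * (2 * k) ^ 4) ^ k ≤ M ^ k := Nat.pow_le_pow_left hM k
          _ ≤ M ^ ((ℓ - 2) * k) := hmono (by
            calc k = 1 * k := (one_mul k).symm
              _ ≤ (ℓ - 2) * k := Nat.mul_le_mul_right _ (by omega))
      have e4 : (2 * (2 * k + 10) * (2 * k) ^ 4) ^ k =
          2 ^ k * ((2 * k + 10) ^ k * (2 * k) ^ (4 * k)) := by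
        rw [mul_pow, mul_pow, ← pow_mul]
        ring
      have e5 : 2 ≤ 2 ^ k := by
        calc 2 = 2 ^ 1 := (pow_one 2).symm
          _ ≤ 2 ^ k := Nat.pow_le_pow_right (by omega) hk
      rw [e1, e2]
      calc 2 * ((2 * k + 10) ^ k * M ^ ((3 * ℓ + 2) * k) * (2 * k) ^ (4 * k))
          = M ^ ((3 * ℓ + 2) * k) * (2 * ((2 * k + 10) ^ k * (2 * k) ^ (4 * k))) := by ring
        _ ≤ M ^ ((3 * ℓ + 2) * k) * (2 ^ k * ((2 * k + 10) ^ k * (2 * k) ^ (4 * k))) :=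
          Nat.mul_le_mul_left _ (Nat.mul_le_mul_right _ e5)
        _ = M ^ ((3 * ℓ + 2) * k) * (2 * (2 * k + 10) * (2 * k) ^ 4) ^ k := by rw [e4]
        _ ≤ _ := Nat.mul_le_mul_left _ e3
    · have e1 : M ^ (ℓ + 1 + ((pe k j + 1) * (4 * k) + 1)) * (M ^ ℓ) ^ (4 * k) =
          M * ((M ^ (ℓ + 1 + pe k j)) ^ (4 * k) * M ^ (ℓ + 1)) := by
        rw [← pow_mul, ← pow_mul, ← pow_add, ← pow_add, ← pow_succ']
        congr 1
        ring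
      calc 2 * ((M ^ (ℓ + 1 + pe k j)) ^ (4 * k) * ((2 * k + 2) * M ^ (ℓ + 1)))
          = (2 * (2 * k + 2)) * ((M ^ (ℓ + 1 + pe k j)) ^ (4 * k) * M ^ (ℓ + 1)) := by ring
        _ ≤ M * ((M ^ (ℓ + 1 + pe k j)) ^ (4 * k) * M ^ (ℓ + 1)) :=
          Nat.mul_le_mul_right _ (by omega)
        _ = M ^ (ℓ + 1 + ((pe k j + 1) * (4 * k) + 1)) * (M ^ ℓ) ^ (4 * k) := e1.symm
        _ ≤ _ := Nat.mul_le_mul_right _ (Nat.le_succ _)
  apply hfree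
  refine lev_embed G (n := M ^ (ℓ + 1)) (k := k) (θ := M ^ ℓ) (τ := (k + 1) * M ^ ℓ)
    (ρ := fun j => M ^ (ℓ + 1 + pe k j))
    (σ := fun j => M ^ (ℓ + 1 + ((pe k j + 1) * (4 * k) + 1)))
    (Mh := fun j => M ^ (ℓ + 1 + ((pe k j + 1) * (4 * k) + 2)))
    hJ hDS (hpos _) ?_ (fun j _ => hpos _) hk ?_ ?_ ?_ ?_ ?_ ?_ H f hf hback
  · intro j _
    show M ^ (ℓ + 1 + pe k j) + M ^ (ℓ + 1) + M ^ (ℓ + 1 + ((pe k j + 1) * (4 * k) + 1)) +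
      M ^ (ℓ + 1 + ((pe k j + 1) * (4 * k) + 2)) ≤ M ^ (ℓ + 1 + pe k (j + 1))
    have hpj : pe k j ≤ (pe k j + 1) * (4 * k) + 2 := by
      have h1 : (pe k j + 1) * 1 ≤ (pe k j + 1) * (4 * k) := Nat.mul_le_mul_left _ (by omega)
      omega
    have h1 : M ^ (ℓ + 1 + pe k j) ≤ M ^ (ℓ + 1 + ((pe k j + 1) * (4 * k) + 2)) :=
      hmono (by omega)
    have h2 : M ^ (ℓ + 1) ≤ M ^ (ℓ + 1 + ((pe k j + 1) * (4 * k) + 2)) := hmono (by omega)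
    have h3 : M ^ (ℓ + 1 + ((pe k j + 1) * (4 * k) + 1)) ≤
      M ^ (ℓ + 1 + ((pe k j + 1) * (4 * k) + 2)) := hmono (by omega)
    have h4 : M ^ (ℓ + 1 + pe k (j + 1)) = M * M ^ (ℓ + 1 + ((pe k j + 1) * (4 * k) + 2)) := by
      rw [← pow_succ', pe]
      congr 1
    have h5 : 4 * M ^ (ℓ + 1 + ((pe k j + 1) * (4 * k) + 2)) ≤
      M * M ^ (ℓ + 1 + ((pe k j + 1) * (4 * k) + 2)) := Nat.mul_le_mul_right _ (by omega)
    omega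
  · intro j _
    show 8 * k * M ^ (ℓ + 1 + ((pe k j + 1) * (4 * k) + 1)) ≤
      M ^ (ℓ + 1 + ((pe k j + 1) * (4 * k) + 2))
    have h4 : M ^ (ℓ + 1 + ((pe k j + 1) * (4 * k) + 2)) =
      M * M ^ (ℓ + 1 + ((pe k j + 1) * (4 * k) + 1)) := by
      rw [← pow_succ']
      congr 1
    rw [h4]
    exact Nat.mul_le_mul_right _ (by omega)
  · rw [hV]
    have e1 : M ^ (ℓ + 1) * (M ^ (ℓ + 1) * ((k + 1) * M ^ ℓ)) = (k + 1) * M ^ (3 * ℓ + 2) := by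
      ring
    have e2 : M ^ (ℓ + 1) * (M ^ (ℓ + 1) * ((k + 1) * M ^ ℓ) + 2 * M ^ (ℓ + 1)) =
      (k + 1) * M ^ (3 * ℓ + 2) + 2 * M ^ (2 * ℓ + 2) := by ring
    have h1 : M ^ (2 * ℓ + 2) ≤ M ^ (3 * ℓ + 2) := hmono (by omega)
    have h2 : M ^ (ℓ + 1) ≤ M ^ (3 * ℓ + 2) := hmono (by omega)
    rw [e2]
    calc 2 * ((k + 1) * M ^ (3 * ℓ + 2) + 2 * M ^ (2 * ℓ + 2) + 2 * M ^ (ℓ + 1))
        ≤ 2 * ((k + 1) * M ^ (3 * ℓ + 2) + 2 * M ^ (3 * ℓ + 2) + 2 * M ^ (3 * ℓ + 2)) := by omega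
      _ = (2 * k + 10) * M ^ (3 * ℓ + 2) := by ring
  · rw [hV]
    have h2 : M * M ^ (ℓ + 1) ≤ M ^ (3 * ℓ + 2) := by
      rw [← pow_succ']
      exact hmono (by omega)
    calc 8 * k * M ^ (ℓ + 1) ≤ M * M ^ (ℓ + 1) := Nat.mul_le_mul_right _ (by omega)
      _ ≤ M ^ (3 * ℓ + 2) := h2
      _ = 1 * M ^ (3 * ℓ + 2) := (one_mul _).symm
      _ ≤ (3 * (2 * k + 10)) * M ^ (3 * ℓ + 2) := Nat.mul_le_mul_right _ (by omega)
      _ = _ := by ring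
  · have h1 := hpos ℓ
    have h2 : (k + 1) * M ^ ℓ = k * M ^ ℓ + M ^ ℓ := by ring
    omega
  · intro j hj
    show k * M ^ (ℓ + 1 + pe k j) < _
    have h1 : M ^ (ℓ + 1 + pe k j) ≤ M ^ (2 * ℓ + 1) := hmono (by have := hp j hj.le; omega)
    have h2 : M ^ (ℓ + 1) * ((k + 1) * M ^ ℓ) = k * M ^ (2 * ℓ + 1) + M ^ (2 * ℓ + 1) := by ring
    have h3 : k * M ^ (ℓ + 1 + pe k j) ≤ k * M ^ (2 * ℓ + 1) := Nat.mul_le_mul_left _ h1
    have h4 := hpos (2 * ℓ + 1)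
    omega
  · intro j hj
    show 2 * (k * M ^ (ℓ + 1 + pe k j)) < _
    rw [hV]
    have h1 : M ^ (ℓ + 1 + pe k j) ≤ M ^ (3 * ℓ + 2) := hmono (by have := hp j hj.le; omega)
    have h3 : (2 * k) * M ^ (ℓ + 1 + pe k j) ≤ (2 * k) * M ^ (3 * ℓ + 2) :=
      Nat.mul_le_mul_left _ h1
    have h4 := hpos (3 * ℓ + 2)
    have h5 : (2 * k + 10) * M ^ (3 * ℓ + 2) = (2 * k) * M ^ (3 * ℓ + 2) + 10 * M ^ (3 * ℓ + 2) := by
      ring
    have h6 : 2 * (k * M ^ (ℓ + 1 + pe k j)) = (2 * k) * M ^ (ℓ + 1 + pe k j) := by ring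
    omega

end Pool.Agent.H95.Ram
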