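import Pool.Agent.H95.Ram.Spot

set_option autoImplicit false
set_option linter.unusedSectionVars false

namespace Pool.Agent.H95.Ram

open Finset Pool.Agent.H38.Ram

variable {V : Type*} [DecidableEq V] (G : SimpleGraph V) [DecidableRel G.Adj]

lemma cnt_one (Y : Finset V) (a : V) : cnt G Y (fun _ : Fin 1 => a) = nb G Y a := by
  ext w
  rw [mem_cnt, mem_nb]
  constructor
  · rintro ⟨h1, h2⟩
    exact ⟨h1, h2 0⟩
  · rintro ⟨h1, h2⟩
    exact ⟨h1, fun _ => h2⟩

/-- Dependent random choice for `k`-tuples. -/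
lemma drc_tuple {k t θ ρ m : ℕ} (hk : 1 ≤ k) (hθ : 1 ≤ θ) (X Y : Finset V)
    (hX : ∀ a ∈ X, θ ≤ (nb G Y a).card) (hXne : X.Nonempty) (hY : Y.card ≤ ρ)
    (h1 : 2 * (X.card ^ k * (2 * k) ^ t) ≤ X.card * θ ^ t)
    (h2 : 2 * (ρ ^ t * m) ≤ X.card * θ ^ t) :
    ∃ W ⊆ X, m ≤ W.card ∧ ∀ x : Fin k → V, (∀ i, x i ∈ W) → 2 * k ≤ (cnt G Y x).card := by
  classical
  set TT := Fintype.piFinset (fun _ : Fin t => Y) with hTT
  set B := (Fintype.piFinset (fun _ : Fin k => X)).filter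
    (fun x => (cnt G Y x).card < 2 * k) with hB
  let UT : (Fin t → V) → Finset V := fun T => X.filter (fun a => ∀ j, G.Adj a (T j))
  let BT : (Fin t → V) → Finset (Fin k → V) := fun T =>
    B.filter (fun x => ∀ i j, G.Adj (x i) (T j))
  have hYne : Y.Nonempty := by
    obtain ⟨a, ha⟩ := hXne
    have h3 := hX a ha
    have h4 : (nb G Y a).card ≤ Y.card := Finset.card_le_card (nb_subset G Y a)
    rw [← Finset.card_pos]
    omega
  have hTTne : TT.Nonempty := by
    obtain ⟨y, hy⟩ := hYne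
    exact ⟨fun _ => y, Fintype.mem_piFinset.2 (fun _ => hy)⟩
  have hTTcard : TT.card ≤ ρ ^ t := by
    rw [hTT, Fintype.card_piFinset]
    simp only [Finset.prod_const, Finset.card_univ, Fintype.card_fin]
    exact Nat.pow_le_pow_left hY t
  have hsumU : X.card * θ ^ t ≤ ∑ T ∈ TT, (UT T).card := by
    have h3 := sum_cnt_card G t Y X 1 (fun a _ => a)
    have h4 : ∑ T ∈ TT, (UT T).card = ∑ a ∈ X, (nb G Y a).card ^ t := by
      have e1 : ∀ T : Fin t → V, (X.filter (fun a => ∀ (_ : Fin 1) (j : Fin t), G.Adj a (T j))) =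
          UT T := by
        intro T
        ext a
        simp [UT]
      simp only [e1, cnt_one] at h3
      exact h3
    rw [h4]
    calc X.card * θ ^ t = ∑ a ∈ X, θ ^ t := by rw [Finset.sum_const, smul_eq_mul]
      _ ≤ ∑ a ∈ X, (nb G Y a).card ^ t :=
        Finset.sum_le_sum (fun a ha => Nat.pow_le_pow_left (hX a ha) t)
  have hsumB : ∑ T ∈ TT, (BT T).card ≤ X.card ^ k * (2 * k) ^ t := by
    have h3 := sum_cnt_card G t Y B k (fun x => x)
    have h4 : ∑ T ∈ TT, (BT T).card = ∑ x ∈ B, (cnt G Y x).card ^ t := h3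
    rw [h4]
    calc ∑ x ∈ B, (cnt G Y x).card ^ t ≤ ∑ x ∈ B, (2 * k) ^ t := by
          refine Finset.sum_le_sum (fun x hx => ?_)
          rw [hB, Finset.mem_filter] at hx
          exact Nat.pow_le_pow_left hx.2.le t
      _ = B.card * (2 * k) ^ t := by rw [Finset.sum_const, smul_eq_mul]
      _ ≤ X.card ^ k * (2 * k) ^ t := by
          apply Nat.mul_le_mul_right
          refine (Finset.card_filter_le _ _).trans ?_
          rw [Fintype.card_piFinset]
          simp
  have hex : ∃ T ∈ TT, m + (BT T).card ≤ (UT T).card := by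
    by_contra hc
    push Not at hc
    have h3 : ∑ T ∈ TT, (UT T).card < ∑ T ∈ TT, (m + (BT T).card) :=
      Finset.sum_lt_sum_of_nonempty hTTne hc
    rw [Finset.sum_add_distrib, Finset.sum_const, smul_eq_mul] at h3
    have h4 : TT.card * m ≤ ρ ^ t * m := Nat.mul_le_mul_right _ hTTcard
    omega
  obtain ⟨T, _, hT⟩ := hex
  let i0 : Fin k := ⟨0, hk⟩
  refine ⟨UT T \ (BT T).image (fun x => x i0), ?_, ?_, ?_⟩
  · exact Finset.sdiff_subset.trans (Finset.filter_subset _ _)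
  · have h3 := Finset.le_card_sdiff ((BT T).image (fun x => x i0)) (UT T)
    have h4 : ((BT T).image (fun x => x i0)).card ≤ (BT T).card := Finset.card_image_le
    omega
  · intro x hx
    by_contra hc
    push Not at hc
    have hxU : ∀ i, x i ∈ X ∧ ∀ j, G.Adj (x i) (T j) := by
      intro i
      have h3 := hx i
      rw [Finset.mem_sdiff] at h3
      exact Finset.mem_filter.1 h3.1
    have hxB : x ∈ BT T := by
      rw [Finset.mem_filter, hB, Finset.mem_filter]
      exact ⟨⟨Fintype.mem_piFinset.2 (fun i => (hxU i).1), hc⟩, fun i j => (hxU i).2 j⟩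
    have h3 := hx i0
    rw [Finset.mem_sdiff] at h3
    exact h3.2 (Finset.mem_image.2 ⟨x, hxB, rfl⟩)

/-- Dense spot lemma for arbitrary `2`-degenerate graphs. -/
lemma dense_spot_gen [Fintype V] {k n t θ ρ σ : ℕ} (hk : 1 ≤ k) (hn : 1 ≤ n) (hθ : 1 ≤ θ)
    (H : SimpleGraph (Fin k)) (f : Fin k → ℕ) (hf : Function.Injective f)
    (hback : ∀ v : Fin k, Set.ncard {u : Fin k | H.Adj u v ∧ f u < f v} ≤ 2)
    (hJ : Joined G n) (hfree : ¬ H.IsContained G)
    (h1 : 2 * ((Finset.univ : Finset V).card ^ k * (2 * k) ^ t) ≤ θ ^ t)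
    (h2 : 2 * (ρ ^ t * ((2 * k + 2) * n)) ≤ (σ + 1) * θ ^ t)
    (Y : Finset V) (hY : Y.card ≤ ρ) :
    (Finset.univ.filter (fun a => θ ≤ (nb G Y a).card)).card ≤ σ := by
  by_contra hc
  push Not at hc
  set X := Finset.univ.filter (fun a => θ ≤ (nb G Y a).card) with hX
  have hXpos : 1 ≤ X.card := by omega
  have hXne : X.Nonempty := by rw [← Finset.card_pos]; omega
  have hXk : X.card ^ k ≤ (Finset.univ : Finset V).card ^ k :=
    Nat.pow_le_pow_left (Finset.card_le_card (Finset.subset_univ _)) k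
  have h1' : 2 * (X.card ^ k * (2 * k) ^ t) ≤ X.card * θ ^ t := by
    calc 2 * (X.card ^ k * (2 * k) ^ t) ≤ 2 * ((Finset.univ : Finset V).card ^ k * (2 * k) ^ t) :=
          Nat.mul_le_mul_left _ (Nat.mul_le_mul_right _ hXk)
      _ ≤ θ ^ t := h1
      _ = 1 * θ ^ t := (one_mul _).symm
      _ ≤ X.card * θ ^ t := Nat.mul_le_mul_right _ hXpos
  have h2' : 2 * (ρ ^ t * ((2 * k + 2) * n)) ≤ X.card * θ ^ t :=
    h2.trans (Nat.mul_le_mul_right _ hc)
  obtain ⟨W, _, hW, hcn⟩ := drc_tuple G hk hθ X Y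
    (fun a ha => (Finset.mem_filter.1 ha).2) hXne hY h1' h2'
  exact hfree (spot_embed G hk hn H f hf hback hJ W Y hW hcn)

end Pool.Agent.H95.Ram
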