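import Pool.Agent.H95.Ram.Levels

set_option autoImplicit false
set_option linter.unusedSectionVars false

namespace Pool.Agent.H95.Ram

open Finset Pool.Agent.H38.Ram

variable {V : Type*} [DecidableEq V] [Fintype V] (G : SimpleGraph V) [DecidableRel G.Adj]

/-- Choosing an element of `X` outside few small sets. -/
lemma exists_avoid {k β : ℕ} (S : Finset (Fin k)) (X : Finset V) (F : Fin k → Finset V)
    (hF : ∀ u ∈ S, (X ∩ F u).card ≤ β) (hX : k * β < X.card) :
    ∃ x ∈ X, ∀ u ∈ S, x ∉ F u := by
  classical
  by_contra hc
  push Not at hc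
  have h1 : X ⊆ S.biUnion (fun u => X ∩ F u) := by
    intro x hx
    obtain ⟨u, hu, hxu⟩ := hc x hx
    exact Finset.mem_biUnion.2 ⟨u, hu, Finset.mem_inter.2 ⟨hx, hxu⟩⟩
  have h2 := Finset.card_le_card h1
  have h3 := Finset.card_biUnion_le_card_mul S (fun u => X ∩ F u) β hF
  have h4 : S.card ≤ k := by
    have := Finset.card_le_univ S
    simpa using this
  have h5 : S.card * β ≤ k * β := Nat.mul_le_mul_right _ h4
  omega

lemma lev_embed {n k θ τ : ℕ} {ρ σ Mh : ℕ → ℕ} (hJ : Joined G n)
    (hDS : ∀ j < k, ∀ Y : Finset V, Y.card ≤ ρ j →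
      (Finset.univ.filter (fun a => θ ≤ (nb G Y a).card)).card ≤ σ j)
    (hρ0 : 1 ≤ ρ 0) (hρ : ∀ j < k, ρ j + n + σ j + Mh j ≤ ρ (j + 1))
    (hσ : ∀ j < k, 1 ≤ σ j) (hk : 1 ≤ k) (hM : ∀ j < k, 8 * k * σ j ≤ Mh j)
    (hN1 : 2 * (n * (n * τ + 2 * n) + 2 * n) ≤ (Finset.univ : Finset V).card)
    (hN2 : 8 * k * n ≤ 3 * (Finset.univ : Finset V).card)
    (hτ : k * θ < τ) (hm : ∀ j < k, k * ρ j < n * τ + 2 * n)
    (hN3 : ∀ j < k, 2 * (k * ρ j) < (Finset.univ : Finset V).card)
    (H : SimpleGraph (Fin k)) (f : Fin k → ℕ) (hf : Function.Injective f)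
    (hback : ∀ v : Fin k, Set.ncard {u : Fin k | H.Adj u v ∧ f u < f v} ≤ 2) :
    H.IsContained G := by
  classical
  have hVne : (Finset.univ : Finset V).Nonempty := by
    rw [← Finset.card_pos]
    have := hN3 0 (by omega)
    omega
  obtain ⟨v₀, _⟩ := hVne
  set m := n * τ + 2 * n with hmdef
  set U : ℕ → Finset V := fun j => (lev G m τ θ Mh j).1 with hU
  set R : ℕ → V → Finset V := fun j => (lev G m τ θ Mh j).2 with hR
  have hRcard : ∀ j ≤ k, ∀ u ∈ U j, (R j u).card ≤ ρ j :=
    lev_snd_card G (τ := τ) hJ hDS hρ0 hρ
  have hUcard : ∀ j ≤ k, (Finset.univ : Finset V).card ≤ 2 * (U j).card :=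
    lev_fst_card G (τ := τ) hJ hDS hρ0 hρ hσ hk hM hN1 hN2
  have hUanti : ∀ j, U (j + 1) ⊆ U j := fun j => lev_fst_anti G m τ θ Mh (Nat.le_succ j)
  have hRsucc : ∀ j u, R (j + 1) u = R j u ∪ (poor G τ (U j) u ∪
      (attR G θ (R j) u ∪ inR G θ (U j) (R j) u)) := fun j u => lev_snd_succ G m τ θ Mh j u
  have hUsucc : ∀ j, U (j + 1) = U j \ (low G m (U j) ∪ heavyR G θ (Mh j) (U j) (R j)) :=
    fun j => lev_fst_succ G m τ θ Mh j
  let Inv : Finset (Fin k) → (Fin k → V) → Prop := fun S φ =>
    (∀ u ∈ S, φ u ∈ U (k - S.card)) ∧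
    (∀ u ∈ S, ∀ v ∈ S, H.Adj u v → G.Adj (φ u) (φ v)) ∧
    (∀ u ∈ S, ∀ w ∈ S, u ≠ w → φ u ∉ R (k - S.card) (φ w))
  have hmain : ∃ φ : Fin k → V, Inv Finset.univ φ := by
    refine greedy f hf Inv (fun _ => v₀) ?_ ?_
    · refine ⟨?_, ?_, ?_⟩ <;> intro u hu <;> simp at hu
    · intro v φ hInv
      obtain ⟨hmem, hadj, hpair⟩ := hInv
      set S := Finset.univ.filter (fun u => f u < f v) with hS
      set B : Finset (Fin k) := Finset.univ.filter (fun u => H.Adj u v ∧ f u < f v) with hB
      have hBset : (B : Set (Fin k)) = {u : Fin k | H.Adj u v ∧ f u < f v} := by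
        ext u; simp [hB]
      have hBS : B ⊆ S := by
        intro u hu
        rw [hB, Finset.mem_filter] at hu
        rw [hS, Finset.mem_filter]
        exact ⟨hu.1, hu.2.2⟩
      have hBcard : B.card ≤ 2 := by
        have := hback v
        rw [← hBset, Set.ncard_coe_finset] at this
        exact this
      have hvS : v ∉ S := by
        rw [hS, Finset.mem_filter]
        intro h
        omega
      have hScard : S.card < k := by
        have h1 : S ⊂ Finset.univ := by
          rw [Finset.ssubset_univ_iff]
          intro h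
          exact hvS (by rw [h]; exact Finset.mem_univ _)
        have h2 := Finset.card_lt_card h1
        rw [Finset.card_univ, Fintype.card_fin] at h2
        exact h2
      set jj := k - S.card - 1 with hjj
      have hjj1 : k - S.card = jj + 1 := by omega
      have hjjk : jj < k := by omega
      have hScard' : (insert v S).card = S.card + 1 := Finset.card_insert_of_notMem hvS
      have hjj2 : k - (insert v S).card = jj := by rw [hScard']; omega
      rw [hjj1] at hmem hpair
      have hmem' : ∀ u ∈ S, φ u ∈ U jj := fun u hu => hUanti jj (hmem u hu)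
      have hlow : ∀ u ∈ S, m ≤ (nb G (U jj) (φ u)).card := by
        intro u hu
        have h1 := hmem u hu
        rw [hUsucc, Finset.mem_sdiff, Finset.mem_union, not_or] at h1
        exact (not_mem_low G).1 h1.2.1
      have hpoor : ∀ u ∈ S, ∀ w ∈ S, u ≠ w → τ ≤ (cn G (U jj) (φ w) (φ u)).card := by
        intro u hu w hw huw
        have h1 := hpair u hu w hw huw
        rw [hRsucc, Finset.mem_union, Finset.mem_union, not_or, not_or, mem_poor, not_lt] at h1
        exact h1.2.1
      have hattp : ∀ u ∈ S, ∀ w ∈ S, u ≠ w → (nb G (R jj (φ w)) (φ u)).card < θ := by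
        intro u hu w hw huw
        have h1 := hpair u hu w hw huw
        rw [hRsucc, Finset.mem_union, Finset.mem_union, Finset.mem_union, not_or, not_or,
          not_or, mem_attR, not_le] at h1
        exact h1.2.2.1
      -- the next vertex
      have hnext : ∃ x ∈ U jj, (∀ b ∈ B, G.Adj (φ b) x) ∧ ∀ u ∈ S, x ∉ R jj (φ u) := by
        have h3 : B.card = 0 ∨ B.card = 1 ∨ B.card = 2 := by omega
        rcases h3 with h | h | h
        · rw [Finset.card_eq_zero] at h
          have hUc := hUcard jj hjjk.le
          have hN3' := hN3 jj hjjk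
          obtain ⟨x, hx, hx1⟩ := exists_avoid (β := ρ jj) S (U jj) (fun u => R jj (φ u))
            (fun u hu => (Finset.card_le_card Finset.inter_subset_right).trans
              (hRcard jj hjjk.le _ (hmem' u hu))) (by omega)
          exact ⟨x, hx, by rw [h]; simp, hx1⟩
        · rw [Finset.card_eq_one] at h
          obtain ⟨b, hb⟩ := h
          have hbS : b ∈ S := hBS (by rw [hb]; simp)
          have h4 := hlow b hbS
          have h5 := hm jj hjjk
          obtain ⟨x, hx, hx1⟩ := exists_avoid (β := ρ jj) S (nb G (U jj) (φ b))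
            (fun u => R jj (φ u))
            (fun u hu => (Finset.card_le_card Finset.inter_subset_right).trans
              (hRcard jj hjjk.le _ (hmem' u hu))) (by omega)
          rw [mem_nb] at hx
          refine ⟨x, hx.1, ?_, hx1⟩
          intro b' hb'
          rw [hb, Finset.mem_singleton] at hb'
          rw [hb']
          exact hx.2
        · rw [Finset.card_eq_two] at h
          obtain ⟨b, c, hbc, hb⟩ := h
          have hbS : b ∈ S := hBS (by rw [hb]; simp)
          have hcS : c ∈ S := hBS (by rw [hb]; simp)
          have h4 := hpoor c hcS b hbS hbc.symm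
          have hβ : ∀ u ∈ S, (cn G (U jj) (φ b) (φ c) ∩ R jj (φ u)).card ≤ θ := by
            intro w hw
            by_cases hwb : w = b
            · have hcw : c ≠ w := by rw [hwb]; exact hbc.symm
              refine le_trans (Finset.card_le_card ?_) (hattp c hcS w hw hcw).le
              intro y hy
              rw [Finset.mem_inter, mem_cn] at hy
              rw [mem_nb]
              exact ⟨hy.2, hy.1.2.2⟩
            · have hbw : b ≠ w := fun h => hwb h.symm
              refine le_trans (Finset.card_le_card ?_) (hattp b hbS w hw hbw).le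
              intro y hy
              rw [Finset.mem_inter, mem_cn] at hy
              rw [mem_nb]
              exact ⟨hy.2, hy.1.2.1⟩
          obtain ⟨x, hx, hx1⟩ := exists_avoid (β := θ) S (cn G (U jj) (φ b) (φ c))
            (fun u => R jj (φ u)) hβ (by omega)
          rw [mem_cn] at hx
          refine ⟨x, hx.1, ?_, hx1⟩
          intro b' hb'
          rw [hb] at hb'
          simp only [Finset.mem_insert, Finset.mem_singleton] at hb'
          rcases hb' with rfl | rfl
          · exact hx.2.1
          · exact hx.2.2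
      obtain ⟨z, hzU, hzB, hzR⟩ := hnext
      have hup : ∀ u ∈ S, Function.update φ v z u = φ u := by
        intro u hu
        apply Function.update_of_ne
        rintro rfl
        exact hvS hu
      have hupv : Function.update φ v z v = z := Function.update_self _ _ _
      have hzadj : ∀ u ∈ S, H.Adj u v → G.Adj (φ u) z := by
        intro u hu huv
        exact hzB u (by
          rw [hB, Finset.mem_filter]
          exact ⟨Finset.mem_univ _, huv, (Finset.mem_filter.1 hu).2⟩)
      refine ⟨z, ?_, ?_, ?_⟩
      · intro u hu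
        rw [hjj2]
        rw [Finset.mem_insert] at hu
        rcases hu with rfl | hu
        · rw [hupv]; exact hzU
        · rw [hup u hu]
          exact hmem' u hu
      · intro u hu w hw huw
        rw [Finset.mem_insert] at hu hw
        rcases hu with rfl | hu
        · rcases hw with rfl | hw
          · exact absurd rfl huw.ne
          · rw [hupv, hup w hw]
            exact (hzadj w hw huw.symm).symm
        · rcases hw with rfl | hw
          · rw [hupv, hup u hu]
            exact hzadj u hu huw
          · rw [hup u hu, hup w hw]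
            exact hadj u hu w hw huw
      · intro u hu w hw huw
        rw [hjj2]
        rw [Finset.mem_insert] at hu hw
        rcases hu with rfl | hu
        · rcases hw with rfl | hw
          · exact absurd rfl huw
          · rw [hupv, hup w hw]
            exact hzR w hw
        · rcases hw with rfl | hw
          · rw [hupv, hup u hu]
            intro h
            exact hzR u hu (lev_symm G m τ θ Mh jj z (φ u) hzU (hmem' u hu) h)
          · rw [hup u hu, hup w hw]
            intro h
            exact hpair u hu w hw huw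
              (lev_snd_mono G m τ θ Mh (φ w) (Nat.le_succ jj) h)
  obtain ⟨φ, _, hadj, hpair⟩ := hmain
  have hinj' : Function.Injective φ := by
    intro u v h
    by_contra huv
    have h1 := hpair u (Finset.mem_univ _) v (Finset.mem_univ _) huv
    apply h1
    rw [h]
    exact lev_self G m τ θ Mh _ _
  refine ⟨⟨⟨φ, ?_⟩, hinj'⟩⟩
  intro u v huv
  exact hadj u (Finset.mem_univ _) v (Finset.mem_univ _) huv

end Pool.Agent.H95.Ram
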