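import Pool.Agent.H38.Ram.Chain
import Pool.Agent.H95.Ram.DS

set_option autoImplicit false
set_option linter.unusedSectionVars false

namespace Pool.Agent.H95.Ram

open Finset Pool.Agent.H38.Ram

variable {V : Type*} [DecidableEq V] [Fintype V] (G : SimpleGraph V) [DecidableRel G.Adj]

/-- Vertices with many neighbours in `R u`. -/
def attR (θ : ℕ) (R : V → Finset V) (u : V) : Finset V :=
  Finset.univ.filter (fun a => θ ≤ (nb G (R u) a).card)

/-- Vertices `v` of `U` such that `a` has many neighbours in `R v`. -/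
def inR (θ : ℕ) (U : Finset V) (R : V → Finset V) (a : V) : Finset V :=
  U.filter (fun v => a ∈ attR G θ R v)

/-- Vertices lying in too many sets `attR`. -/
def heavyR (θ M : ℕ) (U : Finset V) (R : V → Finset V) : Finset V :=
  Finset.univ.filter (fun a => M < (inR G θ U R a).card)

/-- The levels `(U_j, R_j)`. -/
def lev (m τ θ : ℕ) (Mh : ℕ → ℕ) : ℕ → Finset V × (V → Finset V)
  | 0 => (Finset.univ, fun u => {u})
  | j + 1 => ((lev m τ θ Mh j).1 \
      (low G m (lev m τ θ Mh j).1 ∪
        heavyR G θ (Mh j) (lev m τ θ Mh j).1 (lev m τ θ Mh j).2),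
      fun u => (lev m τ θ Mh j).2 u ∪ (poor G τ (lev m τ θ Mh j).1 u ∪
        (attR G θ (lev m τ θ Mh j).2 u ∪
          inR G θ (lev m τ θ Mh j).1 (lev m τ θ Mh j).2 u)))

lemma mem_attR {θ : ℕ} {R : V → Finset V} {u a : V} :
    a ∈ attR G θ R u ↔ θ ≤ (nb G (R u) a).card := by
  simp [attR]

lemma mem_inR {θ : ℕ} {U : Finset V} {R : V → Finset V} {a v : V} :
    v ∈ inR G θ U R a ↔ v ∈ U ∧ a ∈ attR G θ R v := by
  simp [inR]

lemma lev_fst_anti (m τ θ : ℕ) (Mh : ℕ → ℕ) : Antitone (fun j => (lev G m τ θ Mh j).1) :=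
  antitone_nat_of_succ_le (fun j => by
    show (lev G m τ θ Mh (j + 1)).1 ⊆ (lev G m τ θ Mh j).1
    rw [lev]
    exact Finset.sdiff_subset)

lemma lev_snd_succ (m τ θ : ℕ) (Mh : ℕ → ℕ) (j : ℕ) (u : V) :
    (lev G m τ θ Mh (j + 1)).2 u = (lev G m τ θ Mh j).2 u ∪ (poor G τ (lev G m τ θ Mh j).1 u ∪
        (attR G θ (lev G m τ θ Mh j).2 u ∪
          inR G θ (lev G m τ θ Mh j).1 (lev G m τ θ Mh j).2 u)) := by
  rw [lev]

lemma lev_fst_succ (m τ θ : ℕ) (Mh : ℕ → ℕ) (j : ℕ) :
    (lev G m τ θ Mh (j + 1)).1 = (lev G m τ θ Mh j).1 \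
      (low G m (lev G m τ θ Mh j).1 ∪
        heavyR G θ (Mh j) (lev G m τ θ Mh j).1 (lev G m τ θ Mh j).2) := by
  rw [lev]

lemma lev_snd_mono (m τ θ : ℕ) (Mh : ℕ → ℕ) (u : V) :
    Monotone (fun j => (lev G m τ θ Mh j).2 u) :=
  monotone_nat_of_le_succ (fun j => by
    show (lev G m τ θ Mh j).2 u ⊆ (lev G m τ θ Mh (j + 1)).2 u
    rw [lev_snd_succ]
    exact Finset.subset_union_left)

lemma lev_self (m τ θ : ℕ) (Mh : ℕ → ℕ) (j : ℕ) (u : V) : u ∈ (lev G m τ θ Mh j).2 u := by
  have h := lev_snd_mono G m τ θ Mh u (Nat.zero_le j)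
  apply h
  show u ∈ (lev G m τ θ Mh 0).2 u
  rw [lev]
  simp

lemma lev_symm (m τ θ : ℕ) (Mh : ℕ → ℕ) : ∀ (j : ℕ) (u w : V),
    u ∈ (lev G m τ θ Mh j).1 → w ∈ (lev G m τ θ Mh j).1 →
    w ∈ (lev G m τ θ Mh j).2 u → u ∈ (lev G m τ θ Mh j).2 w := by
  intro j
  induction j with
  | zero =>
    intro u w _ _ h
    rw [lev] at h ⊢
    simp only [Finset.mem_singleton] at h ⊢
    exact h.symm
  | succ j ih =>
    intro u w hu hw h
    have hu' : u ∈ (lev G m τ θ Mh j).1 := lev_fst_anti G m τ θ Mh (Nat.le_succ j) hu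
    have hw' : w ∈ (lev G m τ θ Mh j).1 := lev_fst_anti G m τ θ Mh (Nat.le_succ j) hw
    rw [lev_snd_succ, Finset.mem_union, Finset.mem_union, Finset.mem_union] at h ⊢
    rcases h with h | h | h | h
    · exact Or.inl (ih u w hu' hw' h)
    · exact Or.inr (Or.inl (mem_poor_comm G |>.1 h))
    · exact Or.inr (Or.inr (Or.inr ((mem_inR G).2 ⟨hu', h⟩)))
    · exact Or.inr (Or.inr (Or.inl ((mem_inR G).1 h).2))

/-- Sizes of the sets `R_j u`. -/
lemma lev_snd_card {n k θ τ : ℕ} {ρ σ Mh : ℕ → ℕ} (hJ : Joined G n)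
    (hDS : ∀ j < k, ∀ Y : Finset V, Y.card ≤ ρ j →
      (Finset.univ.filter (fun a => θ ≤ (nb G Y a).card)).card ≤ σ j)
    (hρ0 : 1 ≤ ρ 0) (hρ : ∀ j < k, ρ j + n + σ j + Mh j ≤ ρ (j + 1)) :
    ∀ j ≤ k, ∀ u ∈ (lev G (n * τ + 2 * n) τ θ Mh j).1,
      ((lev G (n * τ + 2 * n) τ θ Mh j).2 u).card ≤ ρ j := by
  intro j
  induction j with
  | zero =>
    intro _ u _
    rw [lev]
    simpa using hρ0
  | succ j ih =>
    intro hj u hu
    have hu' := hu
    rw [lev_fst_succ, Finset.mem_sdiff, Finset.mem_union, not_or] at hu'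
    have h1 := ih (by omega) u hu'.1
    have h2 := poor_card G hJ τ _ u hu'.2.1
    have h3 : (attR G θ (lev G (n * τ + 2 * n) τ θ Mh j).2 u).card ≤ σ j :=
      hDS j (by omega) _ h1
    have h4 : (inR G θ (lev G (n * τ + 2 * n) τ θ Mh j).1
        (lev G (n * τ + 2 * n) τ θ Mh j).2 u).card ≤ Mh j := by
      by_contra hc
      apply hu'.2.2
      rw [heavyR, Finset.mem_filter]
      exact ⟨Finset.mem_univ _, by omega⟩
    rw [lev_snd_succ]
    have h5 := hρ j (by omega)
    set A := (lev G (n * τ + 2 * n) τ θ Mh j).2 u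
    set B := poor G τ (lev G (n * τ + 2 * n) τ θ Mh j).1 u
    set C := attR G θ (lev G (n * τ + 2 * n) τ θ Mh j).2 u
    set D := inR G θ (lev G (n * τ + 2 * n) τ θ Mh j).1
        (lev G (n * τ + 2 * n) τ θ Mh j).2 u
    have h6 := Finset.card_union_le A (B ∪ (C ∪ D))
    have h7 := Finset.card_union_le B (C ∪ D)
    have h8 := Finset.card_union_le C D
    omega

/-- Double counting for heavy vertices. -/
lemma heavyR_card {θ σ : ℕ} (M : ℕ) (U : Finset V) (R : V → Finset V)
    (hatt : ∀ v ∈ U, (attR G θ R v).card ≤ σ) :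
    (heavyR G θ M U R).card * M ≤ (Finset.univ : Finset V).card * σ := by
  calc (heavyR G θ M U R).card * M
      = ∑ a ∈ heavyR G θ M U R, M := by rw [Finset.sum_const, smul_eq_mul]
    _ ≤ ∑ a ∈ heavyR G θ M U R, (inR G θ U R a).card := by
        refine Finset.sum_le_sum ?_
        intro a ha
        rw [heavyR, Finset.mem_filter] at ha
        exact ha.2.le
    _ ≤ ∑ a ∈ (Finset.univ : Finset V), (inR G θ U R a).card :=
        Finset.sum_le_sum_of_subset (Finset.subset_univ _)
    _ = ∑ v ∈ U, ((Finset.univ : Finset V).filter (fun a => a ∈ attR G θ R v)).card := by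
        have h := Finset.sum_card_bipartiteAbove_eq_sum_card_bipartiteBelow
          (s := (Finset.univ : Finset V)) (t := U)
          (fun (a v : V) => a ∈ attR G θ R v)
        simpa only [Finset.bipartiteAbove, Finset.bipartiteBelow, inR] using h
    _ ≤ ∑ v ∈ U, σ := by
        refine Finset.sum_le_sum ?_
        intro v hv
        have h1 : ((Finset.univ : Finset V).filter (fun a => a ∈ attR G θ R v)) =
          attR G θ R v := by
          ext a; simp
        rw [h1]
        exact hatt v hv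
    _ = U.card * σ := by rw [Finset.sum_const, smul_eq_mul]
    _ ≤ _ := Nat.mul_le_mul_right _ (Finset.card_le_card (Finset.subset_univ _))

/-- Every level keeps at least half of the vertices. -/
lemma lev_fst_card {n k θ τ : ℕ} {ρ σ Mh : ℕ → ℕ} (hJ : Joined G n)
    (hDS : ∀ j < k, ∀ Y : Finset V, Y.card ≤ ρ j →
      (Finset.univ.filter (fun a => θ ≤ (nb G Y a).card)).card ≤ σ j)
    (hρ0 : 1 ≤ ρ 0) (hρ : ∀ j < k, ρ j + n + σ j + Mh j ≤ ρ (j + 1))
    (hσ : ∀ j < k, 1 ≤ σ j) (hk : 1 ≤ k) (hM : ∀ j < k, 8 * k * σ j ≤ Mh j)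
    (hN1 : 2 * (n * (n * τ + 2 * n) + 2 * n) ≤ (Finset.univ : Finset V).card)
    (hN2 : 8 * k * n ≤ 3 * (Finset.univ : Finset V).card) :
    ∀ j ≤ k, (Finset.univ : Finset V).card ≤ 2 * (lev G (n * τ + 2 * n) τ θ Mh j).1.card := by
  have key : ∀ j ≤ k, 8 * k * (Finset.univ : Finset V).card ≤
      8 * k * (lev G (n * τ + 2 * n) τ θ Mh j).1.card +
        j * (8 * k * n + (Finset.univ : Finset V).card) := by
    intro j
    induction j with
    | zero =>
      intro _
      rw [lev]
      simp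
    | succ j ih =>
      intro hj
      have ih' := ih (by omega)
      have hR := lev_snd_card G (τ := τ) hJ hDS hρ0 hρ j (by omega)
      set N := (Finset.univ : Finset V).card with hN
      set U := (lev G (n * τ + 2 * n) τ θ Mh j).1 with hU
      set R := (lev G (n * τ + 2 * n) τ θ Mh j).2 with hRdef
      have hU2 : N ≤ 2 * U.card := by
        have h1 : j * (8 * k * n + N) ≤ k * (8 * k * n + N) := Nat.mul_le_mul_right _ (by omega)
        have h3 : 8 * k * N ≤ 8 * k * U.card + k * (8 * k * n + N) := ih'.trans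
          (Nat.add_le_add_left h1 _)
        have h4 : k * (8 * N) ≤ k * (8 * U.card + (8 * k * n + N)) := by
          calc k * (8 * N) = 8 * k * N := by ring
            _ ≤ 8 * k * U.card + k * (8 * k * n + N) := h3
            _ = _ := by ring
        have h5 : 8 * N ≤ 8 * U.card + (8 * k * n + N) := Nat.le_of_mul_le_mul_left h4 hk
        omega
      have hlow : (low G (n * τ + 2 * n) U).card ≤ n :=
        (low_card G hJ _ U (by omega)).le
      have hatt : ∀ v ∈ U, (attR G θ R v).card ≤ σ j := fun v hv => hDS j (by omega) _ (hR v hv)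
      have hheavy := heavyR_card G (Mh j) U R hatt
      have hheavy' : 8 * k * (heavyR G θ (Mh j) U R).card ≤ N := by
        have h1 : (heavyR G θ (Mh j) U R).card * (8 * k * σ j) ≤ N * σ j :=
          (Nat.mul_le_mul_left _ (hM j (by omega))).trans hheavy
        have h2 : (8 * k * (heavyR G θ (Mh j) U R).card) * σ j ≤ N * σ j := by
          calc (8 * k * (heavyR G θ (Mh j) U R).card) * σ j
              = (heavyR G θ (Mh j) U R).card * (8 * k * σ j) := by ring
            _ ≤ _ := h1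
        exact Nat.le_of_mul_le_mul_right h2 (hσ j (by omega))
      have hstep : U.card ≤ (lev G (n * τ + 2 * n) τ θ Mh (j + 1)).1.card +
          ((low G (n * τ + 2 * n) U).card + (heavyR G θ (Mh j) U R).card) := by
        have h1 : (lev G (n * τ + 2 * n) τ θ Mh (j + 1)).1 =
            U \ (low G (n * τ + 2 * n) U ∪ heavyR G θ (Mh j) U R) := by
          rw [lev_fst_succ]
        rw [h1]
        have h2 := Finset.le_card_sdiff
          (low G (n * τ + 2 * n) U ∪ heavyR G θ (Mh j) U R) U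
        have h3 := Finset.card_union_le (low G (n * τ + 2 * n) U)
          (heavyR G θ (Mh j) U R)
        omega
      have hstep' : 8 * k * U.card ≤ 8 * k * (lev G (n * τ + 2 * n) τ θ Mh (j + 1)).1.card +
          (8 * k * n + N) := by
        calc 8 * k * U.card ≤ 8 * k * ((lev G (n * τ + 2 * n) τ θ Mh (j + 1)).1.card +
          ((low G (n * τ + 2 * n) U).card + (heavyR G θ (Mh j) U R).card)) :=
              Nat.mul_le_mul_left _ hstep
          _ = 8 * k * (lev G (n * τ + 2 * n) τ θ Mh (j + 1)).1.card +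
              (8 * k * (low G (n * τ + 2 * n) U).card +
                8 * k * (heavyR G θ (Mh j) U R).card) := by ring
          _ ≤ _ := by
              apply Nat.add_le_add_left
              exact Nat.add_le_add (Nat.mul_le_mul_left _ hlow) hheavy'
      calc 8 * k * N ≤ 8 * k * U.card + j * (8 * k * n + N) := ih'
        _ ≤ (8 * k * (lev G (n * τ + 2 * n) τ θ Mh (j + 1)).1.card +
          (8 * k * n + N)) + j * (8 * k * n + N) := Nat.add_le_add_right hstep' _
        _ = _ := by ring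
  intro j hj
  have h0 := key j hj
  set N := (Finset.univ : Finset V).card with hN
  set U := (lev G (n * τ + 2 * n) τ θ Mh j).1 with hU
  have h1 : j * (8 * k * n + N) ≤ k * (8 * k * n + N) := Nat.mul_le_mul_right _ (by omega)
  have h3 : 8 * k * N ≤ 8 * k * U.card + k * (8 * k * n + N) := h0.trans
    (Nat.add_le_add_left h1 _)
  have h4 : k * (8 * N) ≤ k * (8 * U.card + (8 * k * n + N)) := by
    calc k * (8 * N) = 8 * k * N := by ring
      _ ≤ 8 * k * U.card + k * (8 * k * n + N) := h3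
      _ = _ := by ring
  have h5 : 8 * N ≤ 8 * U.card + (8 * k * n + N) := Nat.le_of_mul_le_mul_left h4 hk
  omega

end Pool.Agent.H95.Ram
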