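import Pool.Agent.H95.Ram.LogLow

set_option autoImplicit false
set_option linter.unusedSectionVars false

namespace Pool.Agent.H95.Ram

open Finset Pool.Agent.H38.Ram

variable {V : Type*} [DecidableEq V] [Fintype V] (G : SimpleGraph V) [DecidableRel G.Adj]

/-- Common neighbourhood of the images of the elements of `T`. -/
def cnf {k : ℕ} (φ : Fin k → V) (T : Finset (Fin k)) : Finset V :=
  Finset.univ.filter (fun w => ∀ t ∈ T, G.Adj (φ t) w)

lemma mem_cnf {k : ℕ} {φ : Fin k → V} {T : Finset (Fin k)} {w : V} :
    w ∈ cnf G φ T ↔ ∀ t ∈ T, G.Adj (φ t) w := by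
  simp [cnf]

lemma cnf_congr {k : ℕ} {φ ψ : Fin k → V} {T : Finset (Fin k)} (h : ∀ t ∈ T, φ t = ψ t) :
    cnf G φ T = cnf G ψ T := by
  ext w
  rw [mem_cnf, mem_cnf]
  constructor
  · intro h1 t ht
    rw [← h t ht]
    exact h1 t ht
  · intro h1 t ht
    rw [h t ht]
    exact h1 t ht

lemma log_embed {n q r k : ℕ} (hJ : Joined G n) (hn : 1 ≤ n) (hq1 : 1 ≤ q) (hq : 2 * q ≤ n)
    (hq3 : 3 ^ q * q ≤ n)
    (hN : (2 ^ (k + 1) + k + 1) * n * (8 * n) ^ r ≤ q ^ r * (Finset.univ : Finset V).card)
    (H : SimpleGraph (Fin k)) (f : Fin k → ℕ) (hf : Function.Injective f)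
    (hback : ∀ v : Fin k, Set.ncard {u : Fin k | H.Adj u v ∧ f u < f v} ≤ r) :
    H.IsContained G := by
  classical
  set c : ℕ := 2 ^ (k + 1) + k + 1 with hc
  have hc1 : 1 ≤ c := by
    rw [hc]
    exact Nat.le_add_left 1 _
  have hVne : (Finset.univ : Finset V).Nonempty := by
    rw [← Finset.card_pos]
    by_contra h
    have h1 : (Finset.univ : Finset V).card = 0 := by omega
    rw [h1, Nat.mul_zero] at hN
    have h2 : 0 < c * n * (8 * n) ^ r := by positivity
    omega
  obtain ⟨v₀, _⟩ := hVne
  let Inv : Finset (Fin k) → (Fin k → V) → Prop := fun S φ =>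
    (∀ u ∈ S, ∀ v ∈ S, φ u = φ v → u = v) ∧
    (∀ u ∈ S, ∀ v ∈ S, H.Adj u v → G.Adj (φ u) (φ v)) ∧
    (∀ T ⊆ S, T.card ≤ r → c * n * (8 * n) ^ (r - T.card) ≤ q ^ (r - T.card) * (cnf G φ T).card)
  have hmain : ∃ φ : Fin k → V, Inv Finset.univ φ := by
    refine greedy f hf Inv (fun _ => v₀) ?_ ?_
    · refine ⟨?_, ?_, ?_⟩
      · intro u hu; simp at hu
      · intro u hu; simp at hu
      · intro T hT _
        have hT0 : T = ∅ := Finset.subset_empty.1 hT
        subst hT0
        have h1 : cnf G (fun _ : Fin k => v₀) (∅ : Finset (Fin k)) = Finset.univ := by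
          ext w; simp [cnf]
        rw [h1, Finset.card_empty, Nat.sub_zero]
        exact hN
    · intro v φ hInv
      obtain ⟨hinj, hadj, hcn⟩ := hInv
      set S := Finset.univ.filter (fun u => f u < f v) with hS
      set B : Finset (Fin k) := Finset.univ.filter (fun u => H.Adj u v ∧ f u < f v) with hB
      have hBset : (B : Set (Fin k)) = {u : Fin k | H.Adj u v ∧ f u < f v} := by
        ext u; simp [hB]
      have hBS : B ⊆ S := by
        intro u hu
        rw [hB, Finset.mem_filter] at hu
        rw [hS, Finset.mem_filter]
        exact ⟨hu.1, hu.2.2⟩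
      have hBcard : B.card ≤ r := by
        have := hback v
        rw [← hBset, Set.ncard_coe_finset] at this
        exact this
      have hvS : v ∉ S := by
        rw [hS, Finset.mem_filter]
        intro h
        omega
      have hScard : S.card ≤ k := by
        have := Finset.card_le_univ S
        simpa using this
      -- the poor sets
      let P : Finset (Fin k) → Finset V := fun T => Finset.univ.filter (fun x =>
        q ^ (r - T.card - 1) * (nb G (cnf G φ T) x).card < c * n * (8 * n) ^ (r - T.card - 1))
      have hP : ∀ T ∈ S.powerset.filter (fun T => T.card < r), (P T).card ≤ 2 * n := by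
        intro T hT
        rw [Finset.mem_filter, Finset.mem_powerset] at hT
        obtain ⟨a, ha⟩ : ∃ a, r - T.card = a + 1 := ⟨r - T.card - 1, by omega⟩
        have ha' : r - T.card - 1 = a := by omega
        have h1 := hcn T hT.1 hT.2.le
        rw [ha] at h1
        set W := cnf G φ T with hW
        have h8 : q ^ a ≤ (8 * n) ^ a := Nat.pow_le_pow_left (by omega) a
        have hWq : c * n * (8 * n) ≤ q * W.card := by
          have h2 : q ^ a * (c * n * (8 * n)) ≤ q ^ a * (q * W.card) := by
            calc q ^ a * (c * n * (8 * n)) ≤ (8 * n) ^ a * (c * n * (8 * n)) :=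
                  Nat.mul_le_mul_right _ h8
              _ = c * n * (8 * n) ^ (a + 1) := by ring
              _ ≤ q ^ (a + 1) * W.card := h1
              _ = _ := by ring
          exact Nat.le_of_mul_le_mul_left h2 (by positivity)
        have hW1 : 4 * n * 3 ^ q ≤ W.card := by
          have h2 : q * (4 * n * 3 ^ q) ≤ q * W.card := by
            calc q * (4 * n * 3 ^ q) = 4 * n * (3 ^ q * q) := by ring
              _ ≤ 4 * n * n := Nat.mul_le_mul_left _ hq3
              _ ≤ c * n * (8 * n) := by
                calc 4 * n * n = 1 * n * (4 * n) := by ring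
                  _ ≤ c * n * (8 * n) := Nat.mul_le_mul (Nat.mul_le_mul_right _ hc1) (by omega)
              _ ≤ _ := hWq
          exact Nat.le_of_mul_le_mul_left h2 hq1
        have hW2 : 16 * n ≤ W.card := by
          have h2 : q * (16 * n) ≤ q * W.card := by
            calc q * (16 * n) = (2 * q) * (8 * n) := by ring
              _ ≤ n * (8 * n) := Nat.mul_le_mul_right _ hq
              _ = 1 * n * (8 * n) := by ring
              _ ≤ c * n * (8 * n) := Nat.mul_le_mul_right _ (Nat.mul_le_mul_right _ hc1)
              _ ≤ _ := hWq
          exact Nat.le_of_mul_le_mul_left h2 hq1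
        refine (few_low_log G hJ hn hq W (P T) hW1 hW2 ?_).le
        intro x hx
        have hx' := (Finset.mem_filter.1 hx).2
        rw [ha'] at hx'
        have h3 : q ^ a * (8 * n * (nb G W x).card) < q ^ a * (q * W.card) := by
          calc q ^ a * (8 * n * (nb G W x).card) = (8 * n) * (q ^ a * (nb G W x).card) := by ring
            _ < (8 * n) * (c * n * (8 * n) ^ a) := Nat.mul_lt_mul_of_pos_left hx' (by omega)
            _ = c * n * (8 * n) ^ (a + 1) := by ring
            _ ≤ q ^ (a + 1) * W.card := h1
            _ = _ := by ring
        exact Nat.lt_of_mul_lt_mul_left h3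
      set Bad := S.image φ ∪ (S.powerset.filter (fun T => T.card < r)).biUnion P with hBad
      have hBadcard : Bad.card ≤ k + 2 ^ k * (2 * n) := by
        have h1 := Finset.card_union_le (S.image φ)
          ((S.powerset.filter (fun T => T.card < r)).biUnion P)
        have h2 : (S.image φ).card ≤ S.card := Finset.card_image_le
        have h3 : ((S.powerset.filter (fun T => T.card < r)).biUnion P).card ≤
            2 ^ k * (2 * n) := by
          refine (Finset.card_biUnion_le_card_mul _ _ _ hP).trans ?_
          apply Nat.mul_le_mul_right
          refine (Finset.card_filter_le _ _).trans ?_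
          rw [Finset.card_powerset]
          exact Nat.pow_le_pow_right (by norm_num) hScard
        rw [hBad]
        omega
      have hCB : c * n ≤ (cnf G φ B).card := by
        have h1 := hcn B hBS hBcard
        have h2 : q ^ (r - B.card) * (c * n) ≤ q ^ (r - B.card) * (cnf G φ B).card := by
          calc q ^ (r - B.card) * (c * n) ≤ (8 * n) ^ (r - B.card) * (c * n) :=
                Nat.mul_le_mul_right _ (Nat.pow_le_pow_left (by omega) _)
            _ = c * n * (8 * n) ^ (r - B.card) := by ring
            _ ≤ _ := h1
        exact Nat.le_of_mul_le_mul_left h2 (by positivity)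
      obtain ⟨x, hxC, hxBad⟩ : ∃ x ∈ cnf G φ B, x ∉ Bad := by
        by_contra hcon
        push Not at hcon
        have h1 := Finset.card_le_card (show cnf G φ B ⊆ Bad from hcon)
        have h2 : c * n = 2 ^ k * (2 * n) + (k + 1) * n := by rw [hc]; ring
        have h3 : k + 1 ≤ (k + 1) * n := Nat.le_mul_of_pos_right _ hn
        omega
      rw [hBad, Finset.mem_union, not_or] at hxBad
      have hup : ∀ u ∈ S, Function.update φ v x u = φ u := by
        intro u hu
        apply Function.update_of_ne
        rintro rfl
        exact hvS hu
      have hupv : Function.update φ v x v = x := Function.update_self _ _ _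
      have hxne : ∀ u ∈ S, φ u ≠ x := by
        intro u hu h
        exact hxBad.1 (Finset.mem_image.2 ⟨u, hu, h⟩)
      have hxadj : ∀ u ∈ S, H.Adj u v → G.Adj (φ u) x := by
        intro u hu huv
        rw [mem_cnf] at hxC
        exact hxC u (by
          rw [hB, Finset.mem_filter]
          exact ⟨Finset.mem_univ _, huv, (Finset.mem_filter.1 hu).2⟩)
      refine ⟨x, ?_, ?_, ?_⟩
      · intro u hu w hw huw
        rw [Finset.mem_insert] at hu hw
        rcases hu with rfl | hu
        · rcases hw with rfl | hw
          · rfl
          · rw [hupv, hup w hw] at huw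
            exact absurd huw.symm (hxne w hw)
        · rcases hw with rfl | hw
          · rw [hupv, hup u hu] at huw
            exact absurd huw (hxne u hu)
          · rw [hup u hu, hup w hw] at huw
            exact hinj u hu w hw huw
      · intro u hu w hw huw
        rw [Finset.mem_insert] at hu hw
        rcases hu with rfl | hu
        · rcases hw with rfl | hw
          · exact absurd rfl huw.ne
          · rw [hupv, hup w hw]
            exact (hxadj w hw huw.symm).symm
        · rcases hw with rfl | hw
          · rw [hupv, hup u hu]
            exact hxadj u hu huw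
          · rw [hup u hu, hup w hw]
            exact hadj u hu w hw huw
      · intro T hT hTr
        by_cases hvT : v ∈ T
        · set T' := T.erase v with hT'
          have hT'S : T' ⊆ S := by
            intro u hu
            rw [hT', Finset.mem_erase] at hu
            have := hT hu.2
            rw [Finset.mem_insert] at this
            rcases this with h | h
            · exact absurd h hu.1
            · exact h
          have hT'card : T'.card = T.card - 1 := Finset.card_erase_of_mem hvT
          have hTpos : 1 ≤ T.card := Finset.card_pos.2 ⟨v, hvT⟩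
          have hcnf : cnf G (Function.update φ v x) T = nb G (cnf G φ T') x := by
            ext w
            rw [mem_cnf, mem_nb, mem_cnf]
            constructor
            · intro h
              constructor
              · intro t ht
                have h1 := h t (Finset.mem_of_mem_erase ht)
                rwa [hup t (hT'S ht)] at h1
              · have h1 := h v hvT
                rwa [hupv] at h1
            · rintro ⟨h1, h2⟩ t ht
              by_cases htv : t = v
              · rw [htv, hupv]
                exact h2
              · have h3 : t ∈ T' := Finset.mem_erase.2 ⟨htv, ht⟩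
                rw [hup t (hT'S h3)]
                exact h1 t h3
          rw [hcnf]
          have hxP : x ∉ P T' := by
            intro h
            apply hxBad.2
            rw [Finset.mem_biUnion]
            refine ⟨T', ?_, h⟩
            rw [Finset.mem_filter, Finset.mem_powerset]
            exact ⟨hT'S, by omega⟩
          have h1 : ¬ (q ^ (r - T'.card - 1) * (nb G (cnf G φ T') x).card <
              c * n * (8 * n) ^ (r - T'.card - 1)) := by
            intro h
            exact hxP (Finset.mem_filter.2 ⟨Finset.mem_univ _, h⟩)
          rw [not_lt] at h1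
          have h2 : r - T'.card - 1 = r - T.card := by omega
          rw [h2] at h1
          exact h1
        · have hTS : T ⊆ S := by
            intro u hu
            have := hT hu
            rw [Finset.mem_insert] at this
            rcases this with h | h
            · exact absurd (h ▸ hu) hvT
            · exact h
          have hcnf : cnf G (Function.update φ v x) T = cnf G φ T :=
            cnf_congr G (fun t ht => hup t (hTS ht))
          rw [hcnf]
          exact hcn T hTS hTr
  obtain ⟨φ, hinj, hadj, _⟩ := hmain
  have hinj' : Function.Injective φ := fun u v h =>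
    hinj u (Finset.mem_univ _) v (Finset.mem_univ _) h
  refine ⟨⟨⟨φ, ?_⟩, hinj'⟩⟩
  intro u v huv
  exact hadj u (Finset.mem_univ _) v (Finset.mem_univ _) huv

end Pool.Agent.H95.Ram
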