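import Pool.Agent.H38.Ram.Base
import Pool.Agent.H38.Ram.Greedy

set_option autoImplicit false
set_option linter.unusedSectionVars false

namespace Pool.Agent.H95.Ram

open Finset Pool.Agent.H38.Ram

/-- Losing one element of the ground set costs a factor of at most `3`. -/
lemma choose_drop (n : ℕ) :
    ∀ q : ℕ, 2 * q ≤ n → (2 * n).choose n ≤ 3 ^ q * (2 * n - q).choose n := by
  intro q
  induction q with
  | zero => intro _; simp
  | succ q ih =>
    intro hq
    have ih' := ih (by omega)
    obtain ⟨a, ha⟩ : ∃ a, 2 * n - q = a + 1 := ⟨2 * n - q - 1, by omega⟩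
    have ha' : 2 * n - (q + 1) = a := by omega
    rw [ha']
    rw [ha] at ih'
    have h1 := Nat.choose_mul_succ_eq a n
    have h3 : (a + 1).choose n ≤ 3 * a.choose n := by
      have h4 : a + 1 ≤ 3 * (a + 1 - n) := by omega
      have h5 : 0 < a + 1 - n := by omega
      have h6 : (a + 1).choose n * (a + 1 - n) ≤ (3 * a.choose n) * (a + 1 - n) := by
        rw [← h1]
        calc a.choose n * (a + 1) ≤ a.choose n * (3 * (a + 1 - n)) := Nat.mul_le_mul_left _ h4
          _ = _ := by ring
      exact Nat.le_of_mul_le_mul_right h6 h5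
    calc (2 * n).choose n ≤ 3 ^ q * (a + 1).choose n := ih'
      _ ≤ 3 ^ q * (3 * a.choose n) := Nat.mul_le_mul_left _ h3
      _ = _ := by ring

variable {V : Type*} [DecidableEq V] (G : SimpleGraph V) [DecidableRel G.Adj]

/-- Logarithmic gain over `few_low`: fewer than `2 n` vertices have fewer than `q |W| / (8 n)`
neighbours in `W`. -/
lemma few_low_log {n q : ℕ} (hJ : Joined G n) (hn : 1 ≤ n) (hq : 2 * q ≤ n) (W L : Finset V)
    (hW1 : 4 * n * 3 ^ q ≤ W.card) (hW2 : 16 * n ≤ W.card)
    (hL : ∀ v ∈ L, 8 * n * (nb G W v).card < q * W.card) :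
    L.card < 2 * n := by
  classical
  by_contra hcon
  push Not at hcon
  obtain ⟨A₀, hA₀L, hA₀⟩ := Finset.exists_subset_card_eq hcon
  set W' := W \ A₀ with hW'
  have hW'card : W.card ≤ W'.card + 2 * n := by
    have := Finset.le_card_sdiff A₀ W
    rw [hA₀] at this
    rw [hW']
    omega
  -- double counting of edges
  have hdc : 4 * ∑ w ∈ W', (nb G A₀ w).card ≤ q * W.card := by
    have h1 : ∑ w ∈ W', (nb G A₀ w).card = ∑ v ∈ A₀, (nb G W' v).card := by
      have h := Finset.sum_card_bipartiteAbove_eq_sum_card_bipartiteBelow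
          (s := W') (t := A₀) (fun (w v : V) => G.Adj w v)
      simp only [Finset.bipartiteAbove, Finset.bipartiteBelow] at h
      rw [show (∑ w ∈ W', (nb G A₀ w).card) = ∑ w ∈ W', (A₀.filter (fun v => G.Adj w v)).card from
        rfl, h]
      refine Finset.sum_congr rfl ?_
      intro v _
      congr 1
      ext w
      simp only [Finset.mem_filter, nb, G.adj_comm w v]
    have h2 : 8 * n * ∑ v ∈ A₀, (nb G W' v).card ≤ 2 * n * (q * W.card) := by
      rw [Finset.mul_sum]
      calc ∑ v ∈ A₀, 8 * n * (nb G W' v).card ≤ ∑ v ∈ A₀, q * W.card := by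
            refine Finset.sum_le_sum ?_
            intro v hv
            have h3 := hL v (hA₀L hv)
            have h4 : (nb G W' v).card ≤ (nb G W v).card :=
              Finset.card_le_card (nb_mono G Finset.sdiff_subset v)
            exact (Nat.mul_le_mul_left _ h4).trans h3.le
        _ = 2 * n * (q * W.card) := by rw [Finset.sum_const, smul_eq_mul, hA₀]
    rw [h1]
    have h5 : (2 * n) * (4 * ∑ v ∈ A₀, (nb G W' v).card) ≤ (2 * n) * (q * W.card) := by
      calc (2 * n) * (4 * ∑ v ∈ A₀, (nb G W' v).card) = 8 * n * ∑ v ∈ A₀, (nb G W' v).card := by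
            ring
        _ ≤ _ := h2
    exact Nat.le_of_mul_le_mul_left h5 (by omega)
  -- most vertices of `W'` have few neighbours in `A₀`
  set B := W'.filter (fun w => ¬ (nb G A₀ w).card ≤ q) with hB
  set S := W'.filter (fun w => (nb G A₀ w).card ≤ q) with hS
  have hSB : S.card + B.card = W'.card := Finset.card_filter_add_card_filter_not _
  have hBcard : 4 * B.card ≤ W.card := by
    have h1 : B.card * (q + 1) ≤ ∑ w ∈ W', (nb G A₀ w).card := by
      calc B.card * (q + 1) = ∑ w ∈ B, (q + 1) := by rw [Finset.sum_const, smul_eq_mul]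
        _ ≤ ∑ w ∈ B, (nb G A₀ w).card := by
            refine Finset.sum_le_sum ?_
            intro w hw
            rw [hB, Finset.mem_filter] at hw
            omega
        _ ≤ _ := Finset.sum_le_sum_of_subset (Finset.filter_subset _ _)
    have h2 : (q + 1) * (4 * B.card) ≤ (q + 1) * W.card := by
      calc (q + 1) * (4 * B.card) = 4 * (B.card * (q + 1)) := by ring
        _ ≤ 4 * ∑ w ∈ W', (nb G A₀ w).card := Nat.mul_le_mul_left _ h1
        _ ≤ q * W.card := hdc
        _ ≤ (q + 1) * W.card := Nat.mul_le_mul_right _ (Nat.le_succ q)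
    exact Nat.le_of_mul_le_mul_left h2 (Nat.succ_pos q)
  have hScard : 8 * S.card ≥ 5 * W.card := by omega
  -- every `n`-subset of `A₀` dominates almost everything
  have hdom : ∀ A ∈ Finset.powersetCard n A₀,
      (S.filter (fun w => Disjoint (nb G A₀ w) A)).card ≤ n := by
    intro A hA
    rw [Finset.mem_powersetCard] at hA
    by_contra hc
    push Not at hc
    obtain ⟨a, ha, b, hb, hab⟩ := hJ A (S.filter (fun w => Disjoint (nb G A₀ w) A)) (by
      rw [Finset.disjoint_left]
      intro x hxA hxS
      have h1 := (Finset.mem_filter.1 hxS).1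
      have h2 := (Finset.mem_filter.1 h1).1
      rw [hW', Finset.mem_sdiff] at h2
      exact h2.2 (hA.1 hxA)) hA.2.ge hc.le
    rw [Finset.mem_filter] at hb
    exact (Finset.disjoint_left.1 hb.2) ((mem_nb G).2 ⟨hA.1 ha, hab.symm⟩) ha
  have hsum : ∑ A ∈ Finset.powersetCard n A₀, (S.filter (fun w => Disjoint (nb G A₀ w) A)).card =
      ∑ w ∈ S, ((Finset.powersetCard n A₀).filter (fun A => Disjoint (nb G A₀ w) A)).card := by
    have h := Finset.sum_card_bipartiteAbove_eq_sum_card_bipartiteBelow
          (s := Finset.powersetCard n A₀) (t := S) (fun (A : Finset V) (w : V) =>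
            Disjoint (nb G A₀ w) A)
    simpa only [Finset.bipartiteAbove, Finset.bipartiteBelow] using h
  have hlow : ∀ w ∈ S, (2 * n - q).choose n ≤
      ((Finset.powersetCard n A₀).filter (fun A => Disjoint (nb G A₀ w) A)).card := by
    intro w hw
    rw [hS, Finset.mem_filter] at hw
    have h1 : Finset.powersetCard n (A₀ \ nb G A₀ w) ⊆
        (Finset.powersetCard n A₀).filter (fun A => Disjoint (nb G A₀ w) A) := by
      intro A hA
      rw [Finset.mem_powersetCard] at hA
      rw [Finset.mem_filter, Finset.mem_powersetCard]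
      refine ⟨⟨hA.1.trans Finset.sdiff_subset, hA.2⟩, ?_⟩
      rw [Finset.disjoint_left]
      intro x hx hxA
      have := hA.1 hxA
      rw [Finset.mem_sdiff] at this
      exact this.2 hx
    refine le_trans ?_ (Finset.card_le_card h1)
    rw [Finset.card_powersetCard]
    apply Nat.choose_le_choose
    have := Finset.le_card_sdiff (nb G A₀ w) A₀
    omega
  have h1 : S.card * (2 * n - q).choose n ≤ (2 * n).choose n * n := by
    calc S.card * (2 * n - q).choose n = ∑ w ∈ S, (2 * n - q).choose n := by
          rw [Finset.sum_const, smul_eq_mul]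
      _ ≤ ∑ w ∈ S, ((Finset.powersetCard n A₀).filter (fun A => Disjoint (nb G A₀ w) A)).card :=
        Finset.sum_le_sum hlow
      _ = ∑ A ∈ Finset.powersetCard n A₀,
          (S.filter (fun w => Disjoint (nb G A₀ w) A)).card := hsum.symm
      _ ≤ ∑ A ∈ Finset.powersetCard n A₀, n := Finset.sum_le_sum hdom
      _ = _ := by rw [Finset.sum_const, smul_eq_mul, Finset.card_powersetCard, hA₀]
  have h2 := choose_drop n q hq
  have h3 : (2 * n).choose n * S.card ≤ (2 * n).choose n * (3 ^ q * n) := by
    calc (2 * n).choose n * S.card ≤ (3 ^ q * (2 * n - q).choose n) * S.card :=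
          Nat.mul_le_mul_right _ h2
      _ = 3 ^ q * (S.card * (2 * n - q).choose n) := by ring
      _ ≤ 3 ^ q * ((2 * n).choose n * n) := Nat.mul_le_mul_left _ h1
      _ = _ := by ring
  have h4 : S.card ≤ 3 ^ q * n :=
    Nat.le_of_mul_le_mul_left h3 (Nat.choose_pos (by omega))
  have h5 : 4 * n * 3 ^ q = 4 * (3 ^ q * n) := by ring
  have h6 : 0 < 3 ^ q * n := by positivity
  omega

end Pool.Agent.H95.Ram
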