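import Pool.Agent.H38.Ram.DRC

set_option autoImplicit false
set_option linter.unusedSectionVars false

namespace Pool.Agent.H95.Ram

open Finset Pool.Agent.H38.Ram

/-- A `2`-degenerate graph splits into an independent set (`c v = true`) and a set in which every
vertex has at most one earlier neighbour. -/
lemma exists_split {k : ℕ} (H : SimpleGraph (Fin k)) (f : Fin k → ℕ) (hf : Function.Injective f) :
    ∃ c : Fin k → Bool, ∀ v, (c v = true ↔ ∀ u, H.Adj u v → f u < f v → c u = false) := by
  classical
  let Inv : Finset (Fin k) → (Fin k → Bool) → Prop := fun S c =>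
    ∀ v ∈ S, (c v = true ↔ ∀ u ∈ S, H.Adj u v → f u < f v → c u = false)
  obtain ⟨c, hc⟩ := greedy f hf Inv (fun _ => false) (by intro v hv; simp at hv) (by
    intro v φ hInv
    set S := Finset.univ.filter (fun u => f u < f v) with hS
    have hvS : v ∉ S := by
      rw [hS, Finset.mem_filter]; intro h; omega
    refine ⟨decide (∀ u ∈ S, H.Adj u v → f u < f v → φ u = false), ?_⟩
    have hup : ∀ b : Bool, ∀ u ∈ S, Function.update φ v b u = φ u := by
      intro b u hu
      apply Function.update_of_ne
      rintro rfl
      exact hvS hu
    intro w hw
    rw [Finset.mem_insert] at hw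
    rcases hw with rfl | hw
    · rw [Function.update_self, decide_eq_true_iff]
      constructor
      · intro h u hu huw hlt
        rw [Finset.mem_insert] at hu
        rcases hu with rfl | hu
        · exact absurd rfl huw.ne
        · rw [hup _ u hu]
          exact h u hu huw hlt
      · intro h u hu huw hlt
        have := h u (Finset.mem_insert_of_mem hu) huw hlt
        rwa [hup _ u hu] at this
    · rw [hup _ w hw, hInv w hw]
      have hwv : f w < f v := (Finset.mem_filter.1 hw).2
      constructor
      · intro h u hu huw hlt
        rw [Finset.mem_insert] at hu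
        rcases hu with rfl | hu
        · omega
        · rw [hup _ u hu]
          exact h u hu huw hlt
      · intro h u hu huw hlt
        have := h u (Finset.mem_insert_of_mem hu) huw hlt
        rwa [hup _ u hu] at this)
  refine ⟨c, fun v => ?_⟩
  have := hc v (Finset.mem_univ _)
  simpa using this

variable {V : Type*} [DecidableEq V] (G : SimpleGraph V) [DecidableRel G.Adj]

/-- Iterated removal of vertices with few neighbours. -/
def wch (k : ℕ) (W : Finset V) : ℕ → Finset V
  | 0 => W
  | j + 1 => (wch k W j).filter (fun w => k < (nb G (wch k W j) w).card)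

lemma wch_succ_subset (k : ℕ) (W : Finset V) (j : ℕ) : wch G k W (j + 1) ⊆ wch G k W j := by
  rw [wch]; exact Finset.filter_subset _ _

lemma wch_anti (k : ℕ) (W : Finset V) : Antitone (wch G k W) :=
  antitone_nat_of_succ_le (fun j => wch_succ_subset G k W j)

lemma wch_subset (k : ℕ) (W : Finset V) (j : ℕ) : wch G k W j ⊆ W :=
  wch_anti G k W (Nat.zero_le j)

lemma wch_card {n : ℕ} (hJ : Joined G n) (k : ℕ) (W : Finset V)
    (hW : (2 * k + 2) * n ≤ W.card) :
    ∀ j ≤ k, W.card ≤ (wch G k W j).card + j * n := by
  intro j
  induction j with
  | zero => intro _; simp [wch]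
  | succ j ih =>
    intro hj
    have ih' := ih (by omega)
    have hjn : j * n ≤ k * n := Nat.mul_le_mul_right _ (by omega)
    have e1 : (2 * k + 2) * n = k * n + k * n + 2 * n := by ring
    have e2 : n * k + 2 * n = k * n + 2 * n := by ring
    have hlow : ((wch G k W j).filter (fun w => ¬ k < (nb G (wch G k W j) w).card)).card < n := by
      refine few_low G hJ (wch G k W j) _ k ?_ ?_
      · intro v hv
        rw [Finset.mem_filter] at hv
        exact not_lt.1 hv.2
      · omega
    have hsum := Finset.card_filter_add_card_filter_not (s := wch G k W j)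
      (fun w => k < (nb G (wch G k W j) w).card)
    have e3 : (j + 1) * n = j * n + n := by ring
    have e4 : (wch G k W (j + 1)).card =
      ((wch G k W j).filter (fun w => k < (nb G (wch G k W j) w).card)).card := by rw [wch]
    omega

lemma exists_not_mem_image {k : ℕ} (S : Finset (Fin k)) (φ : Fin k → V) (X : Finset V)
    (hX : k < X.card ∨ (1 ≤ k ∧ 2 * k ≤ X.card)) : ∃ x ∈ X, ∀ u ∈ S, φ u ≠ x := by
  by_contra hc
  push Not at hc
  have h1 : X ⊆ S.image φ := by
    intro x hx
    obtain ⟨u, hu, hux⟩ := hc x hx
    exact Finset.mem_image.2 ⟨u, hu, hux⟩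
  have h2 := Finset.card_le_card h1
  have h3 : (S.image φ).card ≤ S.card := Finset.card_image_le
  have h4 : S.card ≤ k := by
    have := Finset.card_le_univ S
    simpa using this
  omega

/-- Embedding of a `2`-degenerate graph in a dense spot `(W, Y)`: the forest part goes to `W`, the
independent part to `Y`. -/
lemma spot_embed {k n : ℕ} (hk : 1 ≤ k) (hn : 1 ≤ n) (H : SimpleGraph (Fin k)) (f : Fin k → ℕ)
    (hf : Function.Injective f)
    (hback : ∀ v : Fin k, Set.ncard {u : Fin k | H.Adj u v ∧ f u < f v} ≤ 2)
    (hJ : Joined G n) (W Y : Finset V) (hW : (2 * k + 2) * n ≤ W.card)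
    (hcn : ∀ x : Fin k → V, (∀ i, x i ∈ W) → 2 * k ≤ (cnt G Y x).card) :
    H.IsContained G := by
  classical
  obtain ⟨c, hc⟩ := exists_split H f hf
  have hcind : ∀ u v, H.Adj u v → c v = true → c u = false := by
    intro u v huv hv
    rcases lt_trichotomy (f u) (f v) with h | h | h
    · exact (hc v).1 hv u huv h
    · exact absurd (hf h) huv.ne
    · by_contra hu
      have hu' : c u = true := by simpa using hu
      have := (hc u).1 hu' v huv.symm h
      rw [hv] at this
      exact absurd this (by decide)
  have hforest : ∀ v, c v = false →
      (Finset.univ.filter (fun u => H.Adj u v ∧ f u < f v ∧ c u = false)).card ≤ 1 := by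
    intro v hv
    have h1 : ¬ ∀ u, H.Adj u v → f u < f v → c u = false := by
      intro h
      have := (hc v).2 h
      rw [hv] at this
      exact absurd this (by decide)
    push Not at h1
    obtain ⟨u0, hu0, hlt0, hcu0⟩ := h1
    have h2 : (Finset.univ.filter (fun u => H.Adj u v ∧ f u < f v)).card ≤ 2 := by
      have := hback v
      have h3 : ((Finset.univ.filter (fun u => H.Adj u v ∧ f u < f v) : Finset (Fin k)) :
          Set (Fin k)) = {u : Fin k | H.Adj u v ∧ f u < f v} := by
        ext u; simp
      rw [← h3, Set.ncard_coe_finset] at this
      exact this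
    have h4 : (Finset.univ.filter (fun u => H.Adj u v ∧ f u < f v ∧ c u = false)) ⊆
        (Finset.univ.filter (fun u => H.Adj u v ∧ f u < f v)).erase u0 := by
      intro u hu
      rw [Finset.mem_filter] at hu
      rw [Finset.mem_erase, Finset.mem_filter]
      refine ⟨?_, hu.1, hu.2.1, hu.2.2.1⟩
      rintro rfl
      exact hcu0 hu.2.2.2
    have h5 := Finset.card_le_card h4
    have h6 : u0 ∈ (Finset.univ.filter (fun u => H.Adj u v ∧ f u < f v)) := by
      rw [Finset.mem_filter]
      exact ⟨Finset.mem_univ _, hu0, hlt0⟩
    rw [Finset.card_erase_of_mem h6] at h5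
    omega
  set K := Finset.univ.sup f + 1 with hK
  have hfK : ∀ v, f v < K := fun v => Nat.lt_succ_of_le (Finset.le_sup (Finset.mem_univ v))
  let g : Fin k → ℕ := fun v => if c v = true then f v + K else f v
  have hgt : ∀ v, c v = true → g v = f v + K := fun v h => by simp [g, h]
  have hgf : ∀ v, c v = false → g v = f v := fun v h => by simp [g, h]
  have hg : Function.Injective g := by
    intro u v huv
    have h1 := hfK u
    have h2 := hfK v
    cases hu : c u <;> cases hv : c v
    · rw [hgf u hu, hgf v hv] at huv
      exact hf huv
    · rw [hgf u hu, hgt v hv] at huv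
      omega
    · rw [hgt u hu, hgf v hv] at huv
      omega
    · rw [hgt u hu, hgt v hv] at huv
      exact hf (by omega)
  have hWc : ∀ j ≤ k, (k + 2) * n ≤ (wch G k W j).card := by
    intro j hj
    have h1 := wch_card G hJ k W hW j hj
    have h2 : j * n ≤ k * n := Nat.mul_le_mul_right _ hj
    have e1 : (2 * k + 2) * n = k * n + k * n + 2 * n := by ring
    have e2 : (k + 2) * n = k * n + 2 * n := by ring
    omega
  have hWk : ∀ j ≤ k, k < (wch G k W j).card := by
    intro j hj
    have h1 := hWc j hj
    have h2 : (k + 2) * 1 ≤ (k + 2) * n := Nat.mul_le_mul_left _ hn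
    omega
  obtain ⟨w0, hw0⟩ : W.Nonempty := by
    rw [← Finset.card_pos]
    have := hWk 0 (by omega)
    rw [wch] at this
    omega
  let Inv : Finset (Fin k) → (Fin k → V) → Prop := fun S φ =>
    (∀ u ∈ S, ∀ v ∈ S, φ u = φ v → u = v) ∧
    (∀ u ∈ S, c u = false → φ u ∈ wch G k W (k - S.card)) ∧
    (∀ u ∈ S, ∀ v ∈ S, H.Adj u v → G.Adj (φ u) (φ v))
  have hmain : ∃ φ : Fin k → V, Inv Finset.univ φ := by
    refine greedy g hg Inv (fun _ => w0) ?_ ?_
    · refine ⟨?_, ?_, ?_⟩ <;> intro u hu <;> simp at hu
    · intro v φ hInv
      obtain ⟨hinj, hmem, hadj⟩ := hInv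
      set S := Finset.univ.filter (fun u => g u < g v) with hS
      have hvS : v ∉ S := by
        rw [hS, Finset.mem_filter]
        intro h
        omega
      have hScard : S.card < k := by
        have h1 : S ⊂ Finset.univ := by
          rw [Finset.ssubset_univ_iff]
          intro h
          exact hvS (by rw [h]; exact Finset.mem_univ _)
        have h2 := Finset.card_lt_card h1
        rw [Finset.card_univ, Fintype.card_fin] at h2
        exact h2
      set jj := k - S.card - 1 with hjj
      have hjj1 : k - S.card = jj + 1 := by omega
      have hjjk : jj ≤ k := by omega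
      have hScard' : (insert v S).card = S.card + 1 := Finset.card_insert_of_notMem hvS
      have hjj2 : k - (insert v S).card = jj := by rw [hScard']; omega
      have hnext : ∃ x : V, (c v = false → x ∈ wch G k W jj) ∧ (∀ u ∈ S, φ u ≠ x) ∧
          (∀ u ∈ S, H.Adj u v → G.Adj (φ u) x) := by
        cases hcv : c v
        · have hSfalse : ∀ u ∈ S, c u = false := by
            intro u hu
            by_contra hcu
            have hcu' : c u = true := by simpa using hcu
            have h1 : g u < g v := (Finset.mem_filter.1 hu).2
            rw [hgt u hcu', hgf v hcv] at h1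
            have := hfK v
            omega
          set B := S.filter (fun u => H.Adj u v) with hB
          have hBcard : B.card ≤ 1 := by
            refine le_trans (Finset.card_le_card ?_) (hforest v hcv)
            intro u hu
            rw [hB, Finset.mem_filter] at hu
            rw [Finset.mem_filter]
            have h1 : g u < g v := (Finset.mem_filter.1 hu.1).2
            rw [hgf u (hSfalse u hu.1), hgf v hcv] at h1
            exact ⟨Finset.mem_univ _, hu.2, h1, hSfalse u hu.1⟩
          have h3 : B.card = 0 ∨ B.card = 1 := by omega
          rcases h3 with h | h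
          · rw [Finset.card_eq_zero] at h
            obtain ⟨x, hx, hx1⟩ := exists_not_mem_image S φ (wch G k W jj)
              (Or.inl (hWk jj hjjk))
            refine ⟨x, fun _ => hx, hx1, ?_⟩
            intro u hu huv
            have : u ∈ B := by rw [hB, Finset.mem_filter]; exact ⟨hu, huv⟩
            rw [h] at this
            simp at this
          · rw [Finset.card_eq_one] at h
            obtain ⟨b, hb⟩ := h
            have hbS : b ∈ S := by
              have : b ∈ B := by rw [hb]; simp
              exact (Finset.mem_filter.1 this).1
            have h4 := hmem b hbS (hSfalse b hbS)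
            rw [hjj1, wch, Finset.mem_filter] at h4
            obtain ⟨x, hx, hx1⟩ := exists_not_mem_image S φ (nb G (wch G k W jj) (φ b))
              (Or.inl h4.2)
            rw [mem_nb] at hx
            refine ⟨x, fun _ => hx.1, hx1, ?_⟩
            intro u hu huv
            have : u ∈ B := by rw [hB, Finset.mem_filter]; exact ⟨hu, huv⟩
            rw [hb, Finset.mem_singleton] at this
            rw [this]
            exact hx.2
        · let x : Fin k → V := fun u => if c u = false ∧ u ∈ S then φ u else w0
          have hxW : ∀ i, x i ∈ W := by
            intro i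
            by_cases hi : c i = false ∧ i ∈ S
            · have : x i = φ i := if_pos hi
              rw [this]
              exact wch_subset G k W _ (hmem i hi.2 hi.1)
            · have : x i = w0 := if_neg hi
              rw [this]
              exact hw0
          obtain ⟨y, hy, hy1⟩ := exists_not_mem_image S φ (cnt G Y x) (Or.inr ⟨hk, hcn x hxW⟩)
          rw [mem_cnt] at hy
          refine ⟨y, by simp, hy1, ?_⟩
          intro u hu huv
          have hcu : c u = false := hcind u v huv hcv
          have h5 := hy.2 u
          have h6 : x u = φ u := if_pos ⟨hcu, hu⟩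
          rwa [h6] at h5
      obtain ⟨z, hzW, hzne, hzadj⟩ := hnext
      have hup : ∀ u ∈ S, Function.update φ v z u = φ u := by
        intro u hu
        apply Function.update_of_ne
        rintro rfl
        exact hvS hu
      have hupv : Function.update φ v z v = z := Function.update_self _ _ _
      refine ⟨z, ?_, ?_, ?_⟩
      · intro u hu w hw huw
        rw [Finset.mem_insert] at hu hw
        rcases hu with rfl | hu
        · rcases hw with rfl | hw
          · rfl
          · rw [hupv, hup w hw] at huw
            exact absurd huw.symm (hzne w hw)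
        · rcases hw with rfl | hw
          · rw [hupv, hup u hu] at huw
            exact absurd huw (hzne u hu)
          · rw [hup u hu, hup w hw] at huw
            exact hinj u hu w hw huw
      · intro u hu hcu
        rw [hjj2]
        rw [Finset.mem_insert] at hu
        rcases hu with rfl | hu
        · rw [hupv]; exact hzW hcu
        · rw [hup u hu]
          have h1 := hmem u hu hcu
          rw [hjj1] at h1
          exact wch_succ_subset G k W jj h1
      · intro u hu w hw huw
        rw [Finset.mem_insert] at hu hw
        rcases hu with rfl | hu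
        · rcases hw with rfl | hw
          · exact absurd rfl huw.ne
          · rw [hupv, hup w hw]
            exact (hzadj w hw huw.symm).symm
        · rcases hw with rfl | hw
          · rw [hupv, hup u hu]
            exact hzadj u hu huw
          · rw [hup u hu, hup w hw]
            exact hadj u hu w hw huw
  obtain ⟨φ, hinj, _, hadj⟩ := hmain
  have hinj' : Function.Injective φ := fun u v h =>
    hinj u (Finset.mem_univ _) v (Finset.mem_univ _) h
  refine ⟨⟨⟨φ, ?_⟩, hinj'⟩⟩
  intro u v huv
  exact hadj u (Finset.mem_univ _) v (Finset.mem_univ _) huv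

end Pool.Agent.H95.Ram
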